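import Pool.Agent.Lib.Tate.R.R2.Lp
import Pool.Agent.Lib.Tate.R.Lam

/-!
# C42 (MP_071d69_gt), block R2 (helper57): multiplication with the character

`prod_lp`: the product of one real point with the label `e_b` and of a loop of four points is a loop
of four points.  `lam_lp`: `λ · lp (Pl 0 1) ~ lp (Pl 1 1)` (in the labels `e_0 ⊗ a k`).
`lam_lp_add`: `λ · v₂ ~ transAt (gam₂) (1 · v₂)`.
-/

set_option linter.unusedSectionVars false

open Topology unitInterval Filter Set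
open scoped Topology.Homotopy OnePoint ZeroAtInfty

noncomputable section

namespace Pool.Agent.Tate.R2

section prod

variable {A B N : Type} [Fintype A] [DecidableEq A] [Fintype B] [DecidableEq B]
  {a : ZMod 4 → A → ZMod 4}

/-- The coordinates with additional real coordinates. -/
def Co.sum (c : Co A N) (B : Type) : Co (B ⊕ A) (B ⊕ N) where
  qi := Sum.map id c.qi
  yi := Sum.inr c.yi
  xi := Sum.inr c.xi
  cov := by
    rintro (b | n)
    · exact Or.inl ⟨Sum.inl b, rfl⟩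
    · rcases c.cov n with ⟨b, rfl⟩ | rfl | rfl
      · exact Or.inl ⟨Sum.inr b, rfl⟩
      · exact Or.inr (Or.inl rfl)
      · exact Or.inr (Or.inr rfl)
  xq := by
    rintro (b | b) h
    · exact absurd h (by simp)
    · exact c.xq b (Sum.inr_injective h)
  xy h := c.xy (Sum.inr_injective h)

theorem elim_eq_iff {X : Type} (f : B → X) (g : A → X) (z : B ⊕ A → X) :
    z = Sum.elim f g ↔ z ∘ Sum.inl = f ∧ z ∘ Sum.inr = g := by
  constructor
  · rintro rfl
    exact ⟨rfl, rfl⟩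
  · rintro ⟨h1, h2⟩
    funext i
    rcases i with i | i
    · exact congrFun h1 i
    · exact congrFun h2 i

theorem LV.sum (ha : LV a) (b : B → ZMod 4) : LV fun k => (Sum.elim b (a k) : B ⊕ A → ZMod 4) where
  inj k l h := ha.inj ((elim_eq_iff _ _ _).1 h).2
  ch k := by
    have h : ∀ k, chi (Sum.elim b (a k) : B ⊕ A → ZMod 4) = chi b * chi (a k) := fun k =>
      chi_sum _
    rw [h, h, ha.ch k]
    ring

theorem vw_sum (b : B → ZMod 4) (w : ZMod 4 → ℂ) (x : B ⊕ A → ZMod 4) :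
    vw (fun k => (Sum.elim b (a k) : B ⊕ A → ZMod 4)) w x =
      if x ∘ Sum.inl = b then vw a w (x ∘ Sum.inr) else 0 := by
  unfold vw
  simp only [elim_eq_iff]
  split_ifs with h
  · refine Finset.sum_congr rfl fun k _ => ?_
    simp only [h, true_and]
  · refine Finset.sum_eq_zero fun k _ => ?_
    rw [if_neg fun h' => h h'.1]

theorem lb_elim (b : B → ZMod 4) (f ζ : Circle) (j : ZMod 4) :
    lb (fun k => (Sum.elim b (a k) : B ⊕ A → ZMod 4)) f ζ j =
      mpr (PD.bas b).1 (lb a f ζ j) := by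
  ext x y
  show _ = (PD.bas b).1 (x ∘ Sum.inl) (y ∘ Sum.inl) * lb a f ζ j (x ∘ Sum.inr) (y ∘ Sum.inr)
  rw [PD.bas_apply]
  unfold lb
  rw [vw_sum, vw_sum]
  by_cases h1 : x ∘ Sum.inl = b
  · by_cases h2 : y ∘ Sum.inl = b
    · rw [if_pos h1, if_pos h2, if_pos ⟨h1, h2⟩, one_mul]
    · rw [if_neg h2, if_neg (fun h : x ∘ Sum.inl = b ∧ y ∘ Sum.inl = b => h2 h.2), map_zero]
      ring
  · rw [if_neg h1, if_neg (fun h : x ∘ Sum.inl = b ∧ y ∘ Sum.inl = b => h1 h.1)]
    ring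

theorem pz_elim (i₀ : A) (t : B → I) (q : A → I) (r : I) (ζ : ℂ) :
    pz (Sum.inr i₀ : B ⊕ A) (Sum.elim t q) r ζ = mulP (rhoP t) (pz i₀ q r ζ) := by
  by_cases ht : t ∈ Cube.boundary B
  · have h1 : (Sum.elim t q : B ⊕ A → I) ∈ Cube.boundary (B ⊕ A) := by
      obtain ⟨i, hi⟩ := ht
      exact ⟨Sum.inl i, hi⟩
    rw [pz_infty (Or.inl h1), rhoP_bdry ht, infty_mulP]
  · by_cases hq : q ∈ Cube.boundary A ∨ r = 1
    · have h1 : (Sum.elim t q : B ⊕ A → I) ∈ Cube.boundary (B ⊕ A) ∨ r = 1 := by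
        rcases hq with ⟨i, hi⟩ | hq
        · exact Or.inl ⟨Sum.inr i, hi⟩
        · exact Or.inr hq
      rw [pz_infty h1, pz_infty hq, mulP_infty]
    · have h1 : ¬ ((Sum.elim t q : B ⊕ A → I) ∈ Cube.boundary (B ⊕ A) ∨ r = 1) := by
        rintro (⟨i | i, hi⟩ | h)
        · exact ht ⟨i, hi⟩
        · exact hq (Or.inl ⟨i, hi⟩)
        · exact hq (Or.inr h)
      rw [pz_of_not h1, pz_of_not hq, rhoP_of ht, mulP_coe]
      congr 1
      funext i
      rcases i with i | i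
      · unfold pzv
        rw [if_neg (by simp)]
        rfl
      · unfold pzv
        show (_, _) = (_, _)
        congr 1
        by_cases hi : i = i₀
        · rw [if_pos (by rw [hi]), if_pos hi]
        · rw [if_neg (fun h => hi (Sum.inr_injective h)), if_neg hi]

theorem mul_MB (ha : LV a) (i₀ : A) (b : B → ZMod 4) (t : B → I) (q : A → I) (r : I)
    (f ζ : Circle) :
    Wmul (oneW (rhoP t) (rotP_rhoP t) (PD.bas b)) (MB ha i₀ q r f ζ) =
      MB (ha.sum b) (Sum.inr i₀) (Sum.elim t q) r f ζ := by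
  classical
  refine WX.ext fun v => ?_
  show mpr ((oneW (rhoP t) (rotP_rhoP t) (PD.bas b)).1.P (v ∘ Sum.inl))
    ((MB ha i₀ q r f ζ).1.P (v ∘ Sum.inr)) = _
  rw [oneW_P, MB_P, MB_P]
  have key : ∀ j, (if pz (Sum.inr i₀ : B ⊕ A) (Sum.elim t q) r ((ζ : ℂ) * u4 j) =
      (v : OnePoint (B ⊕ A → VV)) then
        lb (fun k => (Sum.elim b (a k) : B ⊕ A → ZMod 4)) f ζ j else 0) =
      mpr (if rhoP t = ((v ∘ Sum.inl : B → VV) : OnePoint (B → VV)) then (PD.bas b).1 else 0)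
        (if pz i₀ q r ((ζ : ℂ) * u4 j) = ((v ∘ Sum.inr : A → VV) : OnePoint (A → VV)) then
          lb a f ζ j else 0) := by
    intro j
    rw [pz_elim, lb_elim]
    by_cases h1 : rhoP t = ((v ∘ Sum.inl : B → VV) : OnePoint (B → VV))
    · by_cases h2 : pz i₀ q r ((ζ : ℂ) * u4 j) = ((v ∘ Sum.inr : A → VV) : OnePoint (A → VV))
      · rw [if_pos h1, if_pos h2, if_pos ((mulP_eq_coe _ _ v).2 ⟨h1, h2⟩)]
      · rw [if_neg h2, if_neg fun h => h2 ((mulP_eq_coe _ _ v).1 h).2, mpr_zero]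
    · rw [if_neg h1, if_neg fun h => h1 ((mulP_eq_coe _ _ v).1 h).1, zero_mpr]
  rw [Finset.sum_congr rfl fun j _ => key j]
  ext x y
  show _ * (∑ j, _ : Mt A (ZMod 4)) _ _ = (∑ j, _ : Mt (B ⊕ A) (ZMod 4)) x y
  rw [Matrix.sum_apply, Matrix.sum_apply, Finset.mul_sum]
  rfl

/-- The product of one real point and a loop of four points. -/
theorem prod_lp (c : Co A N) (ha : LV a) (i₀ : A) (b : B → ZMod 4) (P : Pt) :
    CSRS.prod (realL (PD.bas b)) (lp c ha i₀ P) = lp (c.sum B) (ha.sum b) (Sum.inr i₀) P := by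
  ext s
  show Wmul (oneW (rhoP (s ∘ Sum.inl)) (rotP_rhoP _) (PD.bas b))
    (MF ha i₀ (fun b => s (Sum.inr (c.qi b))) _ _ _ _) = MF (ha.sum b) (Sum.inr i₀) _ _ _ _ _
  have hq : (fun i : B ⊕ A => s ((c.sum B).qi i)) =
      Sum.elim (s ∘ Sum.inl) (fun b => s (Sum.inr (c.qi b))) := by
    funext i
    rcases i with i | i <;> rfl
  rw [hq]
  unfold MF
  show Wmul _ (if (s (Sum.inr c.yi) : ℝ) ≤ 1 / 2 then _ else _) =
    if (s (Sum.inr c.yi) : ℝ) ≤ 1 / 2 then _ else _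
  split_ifs
  · exact mul_MB ha i₀ b _ _ _ _ _
  · exact mul_MB ha i₀ b _ _ _ _ _

end prod

/-! ### Change of the basis -/

section sw

variable {A N : Type} [Fintype A] [DecidableEq A]

open Classical in
/-- The swap of two families of basis vectors. -/
def sw2 (α β : ZMod 4 → A → ZMod 4) (x : A → ZMod 4) : A → ZMod 4 :=
  if h : ∃ k, x = α k then β h.choose else if h : ∃ k, x = β k then α h.choose else x

variable {α β : ZMod 4 → A → ZMod 4}

theorem sw2_left (hα : Function.Injective α) (k : ZMod 4) : sw2 α β (α k) = β k := by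
  have h : ∃ l, α k = α l := ⟨k, rfl⟩
  unfold sw2
  rw [dif_pos h, ← hα h.choose_spec]

theorem sw2_right (hβ : Function.Injective β) (hd : ∀ j k, α j ≠ β k) (k : ZMod 4) :
    sw2 α β (β k) = α k := by
  have h0 : ¬ ∃ l, β k = α l := fun ⟨l, hl⟩ => hd l k hl.symm
  have h : ∃ l, β k = β l := ⟨k, rfl⟩
  unfold sw2
  rw [dif_neg h0, dif_pos h, ← hβ h.choose_spec]

theorem sw2_of_not {x : A → ZMod 4} (h1 : ∀ k, x ≠ α k) (h2 : ∀ k, x ≠ β k) :
    sw2 α β x = x := by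
  unfold sw2
  rw [dif_neg fun ⟨k, hk⟩ => h1 k hk, dif_neg fun ⟨k, hk⟩ => h2 k hk]

theorem sw2_sw2 (hα : Function.Injective α) (hβ : Function.Injective β)
    (hd : ∀ j k, α j ≠ β k) (x : A → ZMod 4) : sw2 α β (sw2 α β x) = x := by
  by_cases h1 : ∃ k, x = α k
  · obtain ⟨k, rfl⟩ := h1
    rw [sw2_left hα, sw2_right hβ hd]
  · by_cases h2 : ∃ k, x = β k
    · obtain ⟨k, rfl⟩ := h2
      rw [sw2_right hβ hd, sw2_left hα]
    · push Not at h1 h2
      rw [sw2_of_not h1 h2, sw2_of_not h1 h2]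

theorem chi_sw2 (hα : Function.Injective α) (hβ : Function.Injective β)
    (hd : ∀ j k, α j ≠ β k) (hc : ∀ k, chi (α k) = chi (β k)) (x : A → ZMod 4) :
    chi (sw2 α β x) = chi x := by
  by_cases h1 : ∃ k, x = α k
  · obtain ⟨k, rfl⟩ := h1
    rw [sw2_left hα, hc]
  · by_cases h2 : ∃ k, x = β k
    · obtain ⟨k, rfl⟩ := h2
      rw [sw2_right hβ hd, hc]
    · push Not at h1 h2
      rw [sw2_of_not h1 h2]

theorem vw_sw2 (hα : Function.Injective α) (hβ : Function.Injective β)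
    (hd : ∀ j k, α j ≠ β k) (w : ZMod 4 → ℂ) (x : A → ZMod 4) :
    vw β w x = vw α w (sw2 α β x) := by
  by_cases h2 : ∃ k, x = β k
  · obtain ⟨k, rfl⟩ := h2
    rw [sw2_right hβ hd, vw_self hα, vw_self hβ]
  · push Not at h2
    rw [vw_of_not w h2]
    by_cases h1 : ∃ k, x = α k
    · obtain ⟨k, rfl⟩ := h1
      rw [sw2_left hα, vw_of_not]
      exact fun l h => hd l k h.symm
    · push Not at h1
      rw [sw2_of_not h1 h2, vw_of_not w h1]

theorem lb_sw2 (hα : Function.Injective α) (hβ : Function.Injective β)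
    (hd : ∀ j k, α j ≠ β k) (f ζ : Circle) (j : ZMod 4) (x y : A → ZMod 4) :
    lb β f ζ j x y = lb α f ζ j (sw2 α β x) (sw2 α β y) := by
  unfold lb
  rw [vw_sw2 hα hβ hd, vw_sw2 hα hβ hd]

theorem MB_sw2 (hα : LV α) (hβ : LV β) (hd : ∀ j k, α j ≠ β k) (i₀ : A) (q : A → I) (r : I)
    (f ζ : Circle) (v : A → VV) (x y : A → ZMod 4) :
    (MB hβ i₀ q r f ζ).1.P v x y = (MB hα i₀ q r f ζ).1.P v (sw2 α β x) (sw2 α β y) := by
  classical
  rw [MB_P, MB_P, Matrix.sum_apply, Matrix.sum_apply]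
  refine Finset.sum_congr rfl fun j _ => ?_
  split_ifs
  · exact lb_sw2 hα.inj hβ.inj hd f ζ j x y
  · rfl

/-- Two bases with the same characters give homotopic loops. -/
theorem lp_swap (c : Co A N) (hα : LV α) (hβ : LV β) (hd : ∀ j k, α j ≠ β k)
    (hc : ∀ k, chi (α k) = chi (β k)) (i₀ : A) (P : Pt) :
    GenLoop.Homotopic (lp c hβ i₀ P) (lp c hα i₀ P) := by
  refine perm_homotopic (sw2 α β) (sw2_sw2 hα.inj hβ.inj hd) (chi_sw2 hα.inj hβ.inj hd hc) _ _ ?_
  intro s v x y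
  show (MF hβ i₀ _ _ _ _ _).1.P v x y = (MF hα i₀ _ _ _ _ _).1.P v (sw2 α β x) (sw2 α β y)
  unfold MF
  split_ifs
  · exact MB_sw2 hα hβ hd i₀ _ _ _ _ v x y
  · exact MB_sw2 hα hβ hd i₀ _ _ _ _ v x y

end sw

/-! ### Rotation of the basis -/

section rotb

variable {A N : Type} [Fintype A] [DecidableEq A] {a : ZMod 4 → A → ZMod 4}

theorem LV.succ (ha : LV a) : LV fun k => a (k + 1) where
  inj k l h := add_right_cancel (ha.inj h)
  ch k := by
    have h1 := ha.ch (k + 1)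
    have h2 := ha.ch (0 + 1)
    have h3 : Complex.I ^ (k + 1).val = Complex.I * Complex.I ^ k.val := u4_add_one k
    have h4 : Complex.I ^ ((0 : ZMod 4) + 1).val = Complex.I * Complex.I ^ (0 : ZMod 4).val :=
      u4_add_one 0
    have h5 : Complex.I ^ (0 : ZMod 4).val = 1 := u4_zero
    rw [h1, h2, h3, h4, h5]
    ring

theorem vw_rot (f ζ : Circle) (hf : f = ζ ^ 4) (j : ZMod 4) (x : A → ZMod 4) :
    vw a (fun k => w0 f ζ k * u4 j ^ k.val) x =
      ((ζ : ℂ) * u4 j) * vw (fun k => a (k + 1)) (fun k => w0 1 ζ k * u4 j ^ k.val) x := by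
  unfold vw
  rw [Finset.mul_sum]
  refine (Fintype.sum_equiv (Equiv.addRight (1 : ZMod 4)) _ _ fun k => ?_).symm
  show _ = if x = a (k + 1) then w0 f ζ (k + 1) * u4 j ^ (k + 1).val else 0
  by_cases hx : x = a (k + 1)
  · rw [if_pos hx, if_pos hx]
    show ((ζ : ℂ) * u4 j) * (w0 1 ζ k * u4 j ^ k.val) = w0 f ζ (k + 1) * u4 j ^ (k + 1).val
    have hw : w0 1 ζ k = (ζ : ℂ) ^ k.val := by
      unfold w0
      by_cases hk : k = 0
      · rw [if_pos hk, hk]
        simp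
      · rw [if_neg hk]
    rw [hw]
    by_cases hk : k = 3
    · subst hk
      have h1 : (3 : ZMod 4) + 1 = 0 := by decide
      rw [h1]
      have h2 : (3 : ZMod 4).val = 3 := by decide
      have h3 : (0 : ZMod 4).val = 0 := by decide
      rw [h2, h3]
      unfold w0
      rw [if_pos rfl, hf, Circle.coe_pow]
      have h4 := u4_pow_four j
      linear_combination ((ζ : ℂ) ^ 4) * h4
    · have h1 : k + 1 ≠ 0 := by
        have : ∀ k : ZMod 4, k ≠ 3 → k + 1 ≠ 0 := by decide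
        exact this k hk
      have h2 : (k + 1).val = k.val + 1 := by
        have : ∀ k : ZMod 4, k ≠ 3 → (k + 1).val = k.val + 1 := by decide
        exact this k hk
      unfold w0
      rw [if_neg h1, h2]
      ring
  · rw [if_neg hx, if_neg hx, mul_zero]

theorem lb_rot (f ζ : Circle) (hf : f = ζ ^ 4) (j : ZMod 4) :
    lb (fun k => a (k + 1)) 1 ζ j = lb a f ζ j := by
  ext x y
  unfold lb
  rw [vw_rot f ζ hf j x, vw_rot f ζ hf j y, map_mul]
  have h1 : ((ζ : ℂ) * u4 j) * (starRingEnd ℂ) ((ζ : ℂ) * u4 j) = 1 := by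
    rw [Complex.mul_conj, Complex.normSq_eq_norm_sq, norm_mul, Circle.norm_coe, norm_u4]
    simp
  linear_combination (-(vw (fun k => a (k + 1)) (fun k => w0 1 ζ k * u4 j ^ k.val) x *
    (starRingEnd ℂ) (vw (fun k => a (k + 1)) (fun k => w0 1 ζ k * u4 j ^ k.val) y) / 4)) * h1

theorem MB_rot (ha : LV a) (i₀ : A) (q : A → I) (r : I) (f ζ : Circle) (hf : f = ζ ^ 4) :
    MB ha.succ i₀ q r 1 ζ = MB ha i₀ q r f ζ := by
  classical
  refine WX.ext fun v => ?_
  rw [MB_P, MB_P]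
  refine Finset.sum_congr rfl fun j _ => ?_
  rw [lb_rot f ζ hf]

theorem exp_quarter (θ : ℝ) : Circle.exp θ = Circle.exp (θ / 4) ^ 4 := by
  rw [show (4 : ℕ) = 3 + 1 from rfl, pow_succ, pow_succ, pow_succ, pow_one, ← Circle.exp_add,
    ← Circle.exp_add, ← Circle.exp_add]
  congr 1
  ring

theorem MF_rot (ha : LV a) (i₀ : A) (q : A → I) (θ : ℝ) (u y : I) :
    MF ha.succ i₀ q 0 θ u y = MF ha i₀ q θ θ u y := by
  unfold MF
  split_ifs
  · exact MB_rot ha i₀ q _ 1 1 (by rw [one_pow])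
  · rw [Circle.exp_zero]
    exact MB_rot ha i₀ q _ _ _ (exp_quarter θ)

theorem lp_rot (c : Co A N) (ha : LV a) (i₀ : A) (n : ℤ) :
    lp c ha.succ i₀ (Pl 0 n) = lp c ha i₀ (Pl n n) := by
  ext s
  rw [lp_apply, lp_apply]
  show MF ha.succ i₀ _ (2 * Real.pi * ((0 : ℤ) : ℝ) * _) _ _ _ = MF ha i₀ _ _ _ _ _
  rw [Int.cast_zero, mul_zero, zero_mul]
  exact MF_rot ha i₀ _ _ _ _

end rotb

section lam

variable {A N : Type} [Fintype A] [DecidableEq A] {a : ZMod 4 → A → ZMod 4}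

theorem chi_unit' (k : ZMod 4) : chi (fun _ : Unit => k) = u4 k := by
  unfold chi u4
  rw [Fintype.prod_unique]

/-- Multiplication with the character `λ`. -/
theorem lam_lp (c : Co A N) (ha : LV a) (i₀ : A) :
    GenLoop.Homotopic (CSRS.prod (realL (PD.bas fun _ : Unit => (1 : ZMod 4)))
        (lp c ha i₀ (Pl 0 1)))
      (lp (c.sum Unit) (ha.sum fun _ => 0) (Sum.inr i₀) (Pl 1 1)) := by
  rw [prod_lp, ← lp_rot]
  refine lp_swap _ (ha.sum fun _ : Unit => (0 : ZMod 4)).succ (ha.sum fun _ => 1) ?_ ?_ _ _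
  · intro j k h
    have h1 := congrFun h (Sum.inl ())
    have h2 : (0 : ZMod 4) = 1 := h1
    exact absurd h2 (by decide)
  · intro k
    have h : ∀ (b : Unit → ZMod 4) k, chi (Sum.elim b (a k) : Unit ⊕ A → ZMod 4) =
        chi b * chi (a k) := fun b k => chi_sum _
    show chi (Sum.elim (fun _ : Unit => (0 : ZMod 4)) (a (k + 1)) : Unit ⊕ A → ZMod 4) = _
    rw [h, h, chi_unit', chi_unit', ha.ch (k + 1), ha.ch k]
    have h3 : Complex.I ^ (k + 1).val = Complex.I * Complex.I ^ k.val := u4_add_one k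
    have h4 : u4 1 = Complex.I := by
      have := u4_add_one 0
      rw [zero_add, u4_zero, mul_one] at this
      exact this
    rw [h3, h4, u4_zero]
    ring

/-- `λ · v₂ ~ gam₂ + 1 · v₂`. -/
theorem lam_lp_add [DecidableEq N] (c : Co A N) (ha : LV a) (i₀ : A) :
    GenLoop.Homotopic (CSRS.prod (realL (PD.bas fun _ : Unit => (1 : ZMod 4)))
        (lp c ha i₀ (Pl 0 1)))
      (GenLoop.transAt (Sum.inr c.xi)
        (lp (c.sum Unit) (ha.sum fun _ => 0) (Sum.inr i₀) (Pl 1 0))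
        (CSRS.prod (WS.unit Unit) (lp c ha i₀ (Pl 0 1)))) := by
  refine (lam_lp c ha i₀).trans ?_
  rw [← realL_unit, prod_lp]
  exact lp_add (c.sum Unit) (ha.sum fun _ => 0) (Sum.inr i₀)

end lam

end Pool.Agent.Tate.R2
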