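import Pool.Agent.Lib.Tate.R.R2.Kp
import Pool.Agent.Lib.Tate.R.R2.La
import Pool.Agent.Lib.Tate.R.R1.R1
import Pool.Agent.Lib.Tate.R.Add
import Pool.Agent.Lib.Tate.T2.Cls

/-!
# C42 (MP_071d69_gt), block R2 (helper14): the relation r2

`r2 : ∃ u, StR.c (inc bet) = (lamS - 1) * u`.
-/

set_option linter.unusedSectionVars false

open Topology unitInterval Filter Set
open scoped Topology.Homotopy OnePoint ZeroAtInfty

noncomputable section

namespace Pool.Agent.Tate.R2

open R3 T2

/-! ### One point with the label `e_1, e_2, e_3` -/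

theorem jv_ne_ak {k : ZMod 4} (hk : k ≠ 0) (b : Bool) :
    ak k ≠ jv (Sum.inl () : LB) (Sum.inr ()) b := by
  rw [jv_eq_bv]
  intro h
  have h1 : some k = (if b then none else some 0) := bv_injective h
  cases b
  · exact hk (Option.some_injective _ h1)
  · exact absurd h1 (by simp)

theorem P3_herm : (P3).IsHermitian := by
  ext x y
  rw [Matrix.conjTranspose_apply]
  unfold P3
  by_cases h : x = y
  · subst h
    split_ifs <;> simp
  · rw [if_neg fun h' => h h'.1.symm, if_neg fun h' => h h'.1]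
    simp

theorem P3_idem : P3 * P3 = P3 := by
  ext x z
  rw [Matrix.mul_apply, Finset.sum_eq_single x]
  · unfold P3
    by_cases h : ∃ k : ZMod 4, k ≠ 0 ∧ x = ak k
    · rw [if_pos ⟨rfl, h⟩, one_mul]
    · rw [if_neg fun h' => h h'.2, zero_mul, if_neg fun h' => h h'.2]
  · intro y _ hy
    have : P3 x y = 0 := if_neg fun h' => hy h'.1.symm
    rw [this, zero_mul]
  · intro h
    exact absurd (Finset.mem_univ _) h

theorem P3_chi (x y : LB → ZMod 4) : P3 x y = chi x * (starRingEnd ℂ) (chi y) * P3 x y := by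
  by_cases h : x = y
  · subst h
    rw [norm_chi, one_mul]
  · have : P3 x y = 0 := if_neg fun h' => h h'.1
    rw [this, mul_zero]

theorem Jm_mul_P3 (m : Matrix Bool Bool ℂ) : Jm (Sum.inl ()) (Sum.inr ()) m * P3 = 0 := by
  ext x z
  rw [Matrix.mul_apply, Matrix.zero_apply]
  refine Finset.sum_eq_zero fun y _ => ?_
  by_cases h : ∃ k : ZMod 4, k ≠ 0 ∧ y = ak k
  · obtain ⟨k, hk, rfl⟩ := h
    rw [Jm_right m (fun b => jv_ne_ak hk b), zero_mul]
  · have : P3 y z = 0 := if_neg fun h' => h h'.2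
    rw [this, mul_zero]

theorem OF_P3 : R3.OF fun _ : Unit => P3 where
  herm _ := P3_herm
  idem _ := P3_idem
  orth i j h := absurd (Subsingleton.elim i j) h

theorem IV_P3 (q : LB → I) : IV (fun _ : Unit => ps q) (fun _ : Unit => P3)
    (Equiv.refl Unit) where
  pt _ := (rotE_ps _).symm
  lb _ a b := P3_chi a b

/-- One point with the label `e_1, e_2, e_3`. -/
def C3f (q : LB → I) : WX LB :=
  cfW (fun _ : Unit => ps q) (fun _ => P3) OF_P3 (Equiv.refl Unit) (IV_P3 q)

theorem continuous_C3f : Continuous C3f :=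
  continuous_cfW (P := fun q (_ : Unit) => ps q) (p := fun _ _ => P3) (fun _ => OF_P3) _ IV_P3
    (fun _ => continuous_ps) fun _ => Or.inl fun _ => Or.inr continuousAt_const

theorem C3f_bdry {q : LB → I} (h : q ∈ Cube.boundary LB) : C3f q = Wpt LB :=
  cfW_infty _ _ _ _ _ fun _ => ps_bdry h

theorem C3f_P (q : LB → I) (y : LB → VV) : (C3f q).1.P y = open Classical in
    if ps q = (y : OnePoint (LB → VV)) then P3 else 0 := cf_unit _ _ _ y

/-- The loop. -/
def C3 : WS.L PB LB :=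
  ⟨⟨fun s => C3f (bets s), continuous_C3f.comp continuous_bets⟩,
    fun _ hs => C3f_bdry (bets_bdry hs)⟩

/-- The homotopy pushes the point to infinity. -/
def q3 (p : I × (PB → I)) : LB → I :=
  Sum.elim (fun _ => max p.1 (bets p.2 (Sum.inl ()))) fun _ => p.2 (Sum.inr ())

theorem continuous_q3 : Continuous q3 := by
  have h : Continuous fun p : I × (PB → I) => bets p.2 (Sum.inl ()) :=
    (continuous_apply _).comp (continuous_bets.comp continuous_snd)
  refine continuous_elim (continuous_pi fun _ => continuous_fst.max h) ?_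
  exact continuous_pi fun _ => (continuous_apply _).comp continuous_snd

theorem C3_null : GenLoop.Homotopic C3 GenLoop.const := by
  refine T2.homotopic_of (fun p => C3f (q3 p)) (continuous_C3f.comp continuous_q3) ?_ ?_ ?_
  · intro s
    show C3f (q3 (0, s)) = C3f (bets s)
    congr 1
    funext b
    rcases b with b | b
    · show max (0 : I) (bets s (Sum.inl ())) = bets s (Sum.inl ())
      exact max_eq_right (bets s (Sum.inl ())).2.1
    · rfl
  · intro s
    refine C3f_bdry ⟨Sum.inl (), Or.inr ?_⟩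
    show max (1 : I) (bets s (Sum.inl ())) = 1
    exact max_eq_left (bets s (Sum.inl ())).2.2
  · intro t s hs
    refine C3f_bdry ?_
    obtain ⟨⟨_, i⟩ | i, hi⟩ := hs
    · refine ⟨Sum.inl (), Or.inr ?_⟩
      have h1 : bets s (Sum.inl ()) = 1 := rad_bdry ⟨i, hi⟩
      show max t (bets s (Sum.inl ())) = 1
      rw [h1]
      exact max_eq_right t.2.2
    · exact ⟨Sum.inr (), hi⟩

/-- The loop with the label of rank four. -/
def F0 : WS.L PB LB := LL (H1.at 0)

theorem F0_apply (s : PB → I) : F0 s = MW (bets s) 0 (fr (dr (betu s))) := by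
  show MW (bets s) (0 * ab2 (dr (betu s))) (fr (dr (betu s))) = _
  rw [zero_mul]

/-- `bet + C3 = F0`. -/
theorem bet_add : GenLoop.Homotopic (GenLoop.transAt (Sum.inr ()) bet C3) F0 := by
  classical
  refine add_homotopic (Sum.inr ()) bet C3 F0 ?_ ?_
  · intro s s' _ y y'
    show (betf s).1.P y * (C3f (bets s')).1.P y' = 0
    rw [betf_P, C3f_P]
    split_ifs
    · exact Jm_mul_P3 _
    · exact mul_zero _
    · exact zero_mul _
    · exact mul_zero _
  · intro s y
    have h1 : (toC F0 s).P y = (MW (bets s) 0 (fr (dr (betu s)))).1.P y := by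
      rw [toC_apply]
      exact congrArg (fun x : WX LB => x.1.P y) (F0_apply s)
    rw [h1, MW_zero_P, fr_mv]
    show _ = (betf s).1.P y + (C3f (bets s)).1.P y
    rw [betf_P, C3f_P]
    by_cases h : ps (bets s) = (y : OnePoint (LB → VV))
    · rw [if_pos h, if_pos h, if_pos h]
      have h2 : betu s ≠ 0 := by
        intro h0
        rw [ps_bdry (betu_zero h0)] at h
        exact OnePoint.infty_ne_coe _ h
      rw [lnm_dr h2]
    · rw [if_neg h, if_neg h, if_neg h, add_zero]

theorem isC_F0 : IsC (inc F0) (StR.c (inc bet)) := by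
  have h1 : StR.c (inc F0) = StR.c (inc bet) := by
    have h2 : StR.c (inc (GenLoop.transAt (Sum.inr ()) bet C3)) = StR.c (inc F0) :=
      StR.c_homotopic (inc_homotopic bet_add)
    rw [inc_transAt, StR.c_transAt] at h2
    have h3 : StR.c (inc C3) = 0 := by
      rw [StR.c_homotopic (inc_homotopic C3_null), inc_const, StR.c_const]
    rw [← h2, h3, add_zero]
  have h4 := isC_self (inc F0)
  rwa [h1] at h4

theorem isC_cm : IsC (inc (cm kap G0 : WS.L PB LB)) (StR.c (inc bet)) :=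
  isC_F0.homotopic (inc_homotopic F0_homotopic)

/-! ### The class of the loop of four points -/

/-- The coordinates of `v₂`. -/
def c1 : Co Unit N3 where
  qi _ := Sum.inl ()
  yi := Sum.inr (Sum.inl ())
  xi := Sum.inr (Sum.inr ())
  cov := by
    rintro (_ | _ | _)
    · exact Or.inl ⟨(), rfl⟩
    · exact Or.inr (Or.inl rfl)
    · exact Or.inr (Or.inr rfl)
  xq _ h := absurd h (by simp)
  xy h := absurd h (by simp)

/-- The basis vectors. -/
def a1 (k : ZMod 4) : Unit → ZMod 4 := fun _ => k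

theorem LV_a1 : LV a1 where
  inj _ _ h := congrFun h ()
  ch k := by
    have h : ∀ k : ZMod 4, chi (a1 k) = Complex.I ^ k.val := by
      intro k
      unfold chi a1
      simp
    rw [h, h, ZMod.val_zero, pow_zero, one_mul]

/-- The loop `v₂`. -/
def v2 : WS.L N3 Unit := lp c1 LV_a1 () (Pl 0 1)

/-- The bijection of the coordinates of `v₂`. -/
def e3 : N3 ≃ (Unit × Fin 3) ⊕ Empty := Fintype.equivOfCardEq (by simp)

/-- The bijection of the levels of `v₂`. -/
def e3' : Unit ≃ Unit ⊕ Empty := Fintype.equivOfCardEq (by simp)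

/-- The bijection of the coordinates. -/
def E1 : Unit ⊕ N3 ≃ ((Empty ⊕ Unit) × Fin 3) ⊕ (Unit ⊕ Empty) :=
  (Equiv.sumCongr (emC Unit) e3).trans (shC Empty Unit Unit Empty)

/-- The bijection of the levels. -/
def E2 : Unit ⊕ Unit ≃ (Empty ⊕ Unit) ⊕ (Unit ⊕ Empty) :=
  (Equiv.sumCongr (emL Unit) e3').trans (shL Empty Unit Unit Empty)

/-- The class of a loop. -/
def dd (g : WS.L (Unit ⊕ N3) LB) : StR WS := StR.c (lrho E1 E2 (inc g))

theorem dd_homotopic {f g : WS.L (Unit ⊕ N3) LB} (h : GenLoop.Homotopic f g) : dd f = dd g :=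
  StR.c_homotopic (relab_homotopic _ (push_homotopic _ (inc_homotopic h)))

theorem dd_transAt (i : Unit ⊕ N3) (f g : WS.L (Unit ⊕ N3) LB) :
    dd (GenLoop.transAt i f g) = dd f + dd g := by
  unfold dd
  rw [inc_transAt, c_lrho_transAt]

/-- The class of `v₂`. -/
def xv : StR WS := StR.c (lrho e3 e3' (inc v2))

theorem dd_prod (f : WS.L Unit Unit) : dd (CSRS.prod f v2) = cS f * xv := by
  unfold dd cS xv E1 E2
  rw [inc_prod, lrho_trans, lrho_prod, StR.c_prod]

/-- The loop `gam₂`. -/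
def G1 : WS.L (Unit ⊕ N3) LB :=
  lp (c1.sum Unit) (LV_a1.sum fun _ : Unit => 0) (Sum.inr ()) (Pl 1 0)

theorem dd_G1 : dd G1 = (R1.lamS - 1) * xv := by
  have h1 := dd_homotopic (lam_lp_add c1 LV_a1 ())
  rw [dd_transAt] at h1
  have h2 : dd (CSRS.prod (realL (PD.bas fun _ : Unit => (1 : ZMod 4))) (lp c1 LV_a1 () (Pl 0 1))) =
      R1.lamS * xv := dd_prod _
  have h3 : dd (CSRS.prod (WS.unit Unit) (lp c1 LV_a1 () (Pl 0 1))) = 1 * xv := by
    have h4 := dd_prod (WS.unit Unit)
    rw [cS_unit] at h4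
    exact h4
  rw [h2, h3] at h1
  have h5 : dd G1 = dd (lp (c1.sum Unit) (LV_a1.sum fun _ : Unit => 0) (Sum.inr ()) (Pl 1 0)) := rfl
  rw [h5]
  linear_combination -h1

theorem isC_G1 : IsC (inc G1) ((R1.lamS - 1) * xv) := by
  rw [← dd_G1]
  exact isC_lrho_self E1 E2 (inc G1)

/-- The bijection of the coordinates of the two loops. -/
def e12 : Unit ⊕ N3 ≃ N3 ⊕ Unit where
  toFun := Sum.elim (fun _ => Sum.inl (Sum.inl ()))
    (Sum.elim (fun _ => Sum.inr ()) fun z => Sum.inl (Sum.inr z))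
  invFun := Sum.elim (Sum.elim (fun _ => Sum.inl ()) fun z => Sum.inr (Sum.inr z))
    fun _ => Sum.inr (Sum.inl ())
  left_inv := by rintro (_ | _ | _) <;> rfl
  right_inv := by rintro ((_ | _) | _) <;> rfl

theorem G0_eq : G0 = lrho e12 (Equiv.refl LB) G1 := by
  ext s
  rw [lrho_apply, WS.map_refl]
  have h : (fun b : LB => s (c2.qi b)) = fun b : LB => s (e12 ((c1.sum Unit).qi b)) := by
    funext b
    rcases b with b | b <;> rfl
  show MF LV_ak (Sum.inr ()) (fun b : LB => s (c2.qi b)) _ _ _ _ =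
    MF (LV_a1.sum fun _ : Unit => 0) (Sum.inr ()) (fun b : LB => s (e12 ((c1.sum Unit).qi b)))
      _ _ _ _
  rw [h]
  rfl

theorem isC_G0 : IsC (inc G0) ((R1.lamS - 1) * xv) := by
  rw [G0_eq, inc_lrho]
  exact (IsC.lrho_iff _ _).2 isC_G1

/-! ### Composition -/

theorem incH_inv {N A : Type} [Fintype A] [DecidableEq A] [DecidableEq N] [Nonempty N]
    (f : WS.P N A) : incH f⁻¹ = (incH f)⁻¹ := by
  have h := incH_mul f⁻¹ f
  rw [inv_mul_cancel, incH_one] at h
  exact eq_inv_of_mul_eq_one_left h.symm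

theorem incH_zpow {N A : Type} [Fintype A] [DecidableEq A] [DecidableEq N] [Nonempty N]
    (f : WS.P N A) (ε : ℤˣ) : incH (f ^ (ε : ℤ)) = incH f ^ (ε : ℤ) := by
  rcases Int.units_eq_one_or ε with h | h
  · rw [h, Units.val_one, zpow_one, zpow_one]
  · rw [h, Units.val_neg, Units.val_one, zpow_neg_one, zpow_neg_one, incH_inv]

/-- **The relation r2.** -/
theorem r2 : ∃ u : StR WS, StR.c (inc bet) = (R1.lamS - 1) * u := by
  obtain ⟨ε, hε⟩ := comp (E := WS) kap G0
  have hne : Nonempty ((Unit × Fin 3) ⊕ Unit) := ⟨Sum.inr ()⟩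
  have hne2 : Nonempty (((Unit × Fin 3) ⊕ Unit) ⊕ N3) := ⟨Sum.inr (Sum.inl ())⟩
  -- the class of `unit ∘ kap`
  let eP : Unit × Fin 3 ≃ (Empty × Fin 3) ⊕ N3 := Fintype.equivOfCardEq (by simp)
  let eB : N3 ≃ Empty ⊕ N3 := Fintype.equivOfCardEq (by simp)
  have hU := isC_lrho_self eP eB (inc (cm0 kap (WS.unit N3)))
  set k := StR.c (lrho eP eB (inc (cm0 kap (WS.unit N3))))
  have h1 : (T2.cls (lrho (sw3 N3 Unit (Unit × Fin 3)) (Equiv.refl (LB ⊕ N3))
      (CSRS.prod (inc G0) (inc (cm0 kap (WS.unit N3))))) :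
      WS.cp.P (((Unit × Fin 3) ⊕ Unit) ⊕ N3) (LB ⊕ N3)) =
      T2.cls (CSRS.prod (inc (cm kap G0)) (WS.cp.unit N3)) ^ (ε : ℤ) := by
    have h2 := congrArg incH hε
    rw [incH_zpow] at h2
    rw [← inc_unit, ← inc_prod, ← inc_prod, ← inc_lrho]
    exact h2
  have h3 : IsC (lrho (sw3 N3 Unit (Unit × Fin 3)) (Equiv.refl (LB ⊕ N3))
      (CSRS.prod (inc G0) (inc (cm0 kap (WS.unit N3))))) ((R1.lamS - 1) * xv * k) :=
    (IsC.lrho_iff _ _).2 (isC_G0.prod hU)
  have h4 := h3.of_zpow ε h1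
  have h5 : IsC (CSRS.prod (inc (cm kap G0)) (WS.cp.unit N3)) (StR.c (inc bet) * 1) :=
    isC_cm.prod isC_unit
  rw [mul_one] at h5
  rcases h5.unique h4 with h6 | h6
  · exact ⟨xv * k, by rw [h6]; ring⟩
  · exact ⟨-(xv * k), by rw [h6]; ring⟩

end Pool.Agent.Tate.R2
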