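import Pool.Agent.Lib.Tate.R.R2.Mw

/-!
# C42 (MP_071d69_gt), block R2 (helper14): the homotopies

Frames of the tautological line over the two hemispheres; the loop `F0` (one point with the label
of `bet` plus `e_1, e_2, e_3`) is homotopic to the loop `F4` of four points with the labels
`f e_0 + ∑_{k > 0} (I^j)^k e_k`, `f` a function of degree one on the equator.
-/

set_option linter.unusedSectionVars false

open Topology unitInterval Filter Set
open scoped Topology.Homotopy OnePoint ZeroAtInfty

noncomputable section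

namespace Pool.Agent.Tate.R2

open R3

/-! ### Normalisation -/

/-- The norm of a vector of `ℂ²`. -/
def nn (x : ℂ × ℂ) : ℝ := Real.sqrt (Complex.normSq x.1 + Complex.normSq x.2)

theorem nn_sq (x : ℂ × ℂ) : nn x ^ 2 = Complex.normSq x.1 + Complex.normSq x.2 :=
  Real.sq_sqrt (add_nonneg (Complex.normSq_nonneg _) (Complex.normSq_nonneg _))

theorem nn_pos {x : ℂ × ℂ} (h : x ≠ 0) : 0 < nn x := by
  apply Real.sqrt_pos.2
  have h1 := Complex.normSq_nonneg x.1
  have h2 := Complex.normSq_nonneg x.2
  rcases lt_or_eq_of_le (add_nonneg h1 h2) with h3 | h3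
  · exact h3
  · exfalso
    apply h
    have e1 : Complex.normSq x.1 = 0 := by linarith
    have e2 : Complex.normSq x.2 = 0 := by linarith
    exact Prod.ext (Complex.normSq_eq_zero.1 e1) (Complex.normSq_eq_zero.1 e2)

theorem continuous_nn : Continuous nn := by
  unfold nn
  exact Real.continuous_sqrt.comp ((Complex.continuous_normSq.comp continuous_fst).add
    (Complex.continuous_normSq.comp continuous_snd))

/-- The normalized vector. -/
def nv' (x : ℂ × ℂ) (h : x ≠ 0) : SV := ⟨(x.1 / nn x, x.2 / nn x), by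
  have h1 : (nn x : ℂ) ≠ 0 := by exact_mod_cast (nn_pos h).ne'
  have h2 : (nn x : ℂ) ^ 2 = x.1 * (starRingEnd ℂ) x.1 + x.2 * (starRingEnd ℂ) x.2 := by
    rw [Complex.mul_conj, Complex.mul_conj]
    exact_mod_cast nn_sq x
  simp only [map_div₀, Complex.conj_ofReal]
  field_simp
  linear_combination -h2⟩

open Classical in
/-- The normalized vector (`(1, 0)` for the vector `0`). -/
def nv (x : ℂ × ℂ) : SV := if h : x = 0 then ev 1 else nv' x h

theorem nv_of {x : ℂ × ℂ} (h : x ≠ 0) : nv x = nv' x h := dif_neg h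

theorem continuousAt_nv {x : ℂ × ℂ} (h : x ≠ 0) : ContinuousAt nv x := by
  refine Topology.IsInducing.subtypeVal.continuousAt_iff.2 ?_
  have h1 : (nn x : ℂ) ≠ 0 := by exact_mod_cast (nn_pos h).ne'
  have hn : Continuous fun x : ℂ × ℂ => (nn x : ℂ) :=
    Complex.continuous_ofReal.comp continuous_nn
  refine ContinuousAt.congr (f := fun y : ℂ × ℂ => (y.1 / nn y, y.2 / nn y)) ?_ ?_
  · exact (continuousAt_fst.div hn.continuousAt h1).prodMk (continuousAt_snd.div hn.continuousAt h1)
  · filter_upwards [isOpen_ne.mem_nhds h] with y hy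
    show _ = (nv y).1
    rw [nv_of hy]
    rfl

theorem nv_mv {x : ℂ × ℂ} (h : x ≠ 0) (b b' : Bool) : (nv x).mv b b' =
    (if b then x.2 else x.1) * (starRingEnd ℂ) (if b' then x.2 else x.1) /
      ((Complex.normSq x.1 + Complex.normSq x.2 : ℝ) : ℂ) := by
  have h1 : (nn x : ℂ) ≠ 0 := by exact_mod_cast (nn_pos h).ne'
  rw [← nn_sq, nv_of h]
  have h2 : ∀ b, (nv' x h).co b = (if b then x.2 else x.1) / nn x := by
    intro b
    cases b <;> rfl
  unfold SV.mv
  rw [h2, h2, map_div₀, Complex.conj_ofReal]
  push_cast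
  field_simp

theorem SV.ext' {v v' : SV} (h1 : v.1.1 = v'.1.1) (h2 : v.1.2 = v'.1.2) : v = v' :=
  Subtype.ext (Prod.ext h1 h2)

/-- A positive multiple of `(1, 0)`. -/
theorem nv_real {c : ℝ} (h : 0 < c) : nv ((c : ℂ), 0) = ev 1 := by
  have h0 : ((c : ℂ), (0 : ℂ)) ≠ 0 := by
    intro h'
    have h'' : (c : ℂ) = 0 := congrArg Prod.fst h'
    exact h.ne' (by exact_mod_cast h'')
  have h1 : nn ((c : ℂ), 0) = c := by
    unfold nn
    simp only [Complex.normSq_ofReal, map_zero, add_zero]
    exact Real.sqrt_mul_self h.le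
  rw [nv_of h0]
  have h2 : (c : ℂ) ≠ 0 := by exact_mod_cast h.ne'
  refine SV.ext' ?_ ?_
  · show (c : ℂ) / nn ((c : ℂ), 0) = ((1 : Circle) : ℂ)
    rw [h1, div_self h2, Circle.coe_one]
  · show (0 : ℂ) / _ = 0
    rw [zero_div]

theorem Circle.mul_conj' (c : Circle) : (c : ℂ) * (starRingEnd ℂ) (c : ℂ) = 1 := by
  rw [Complex.mul_conj, Complex.normSq_eq_norm_sq, Circle.norm_coe]
  simp

/-- Multiplication with a scalar. -/
def sm (c : Circle) (v : SV) : SV := ⟨((c : ℂ) * v.1.1, (c : ℂ) * v.1.2), by
  have h1 := v.2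
  have h2 := Circle.mul_conj' c
  simp only [map_mul]
  linear_combination h2 * (v.1.1 * (starRingEnd ℂ) v.1.1 + v.1.2 * (starRingEnd ℂ) v.1.2) + h1⟩

theorem sm_one (v : SV) : sm 1 v = v := by
  refine SV.ext' ?_ ?_
  · show ((1 : Circle) : ℂ) * _ = _
    rw [Circle.coe_one, one_mul]
  · show ((1 : Circle) : ℂ) * _ = _
    rw [Circle.coe_one, one_mul]

theorem sm_ev (c : Circle) : sm c (ev 1) = ev c := by
  refine SV.ext' ?_ ?_
  · show (c : ℂ) * ((1 : Circle) : ℂ) = _
    rw [Circle.coe_one, mul_one]
    rfl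
  · show (c : ℂ) * 0 = _
    rw [mul_zero]
    rfl

theorem sm_mv (c : Circle) (v : SV) : (sm c v).mv = v.mv := by
  ext b b'
  have h2 := Circle.mul_conj' c
  have h3 : ∀ b, (sm c v).co b = (c : ℂ) * v.co b := by
    intro b
    cases b <;> rfl
  unfold SV.mv
  rw [h3, h3, map_mul]
  linear_combination h2 * (v.co b * (starRingEnd ℂ) (v.co b'))

theorem continuous_sm : Continuous fun p : Circle × SV => sm p.1 p.2 := by
  refine Continuous.subtype_mk ?_ _
  have h1 : Continuous fun p : Circle × SV => (p.1 : ℂ) :=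
    continuous_subtype_val.comp continuous_fst
  have h2 : Continuous fun p : Circle × SV => p.2.1 := continuous_subtype_val.comp continuous_snd
  exact (h1.mul (continuous_fst.comp h2)).prodMk (h1.mul (continuous_snd.comp h2))

/-! ### Numbers of norm one -/

open Classical in
/-- `x / |x|` -/
def cn (x : ℂ) : Circle := if h : x = 0 then 1 else ⟨x / (‖x‖ : ℂ), by
  have h1 : ‖x‖ ≠ 0 := norm_ne_zero_iff.2 h
  simp [Submonoid.unitSphere, h1]⟩

theorem cn_coe {x : ℂ} (h : x ≠ 0) : (cn x : ℂ) = x / (‖x‖ : ℂ) := by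
  unfold cn
  rw [dif_neg h]

theorem continuousAt_cn {x : ℂ} (h : x ≠ 0) : ContinuousAt cn x := by
  refine Topology.IsInducing.subtypeVal.continuousAt_iff.2 ?_
  have h1 : (‖x‖ : ℂ) ≠ 0 := by exact_mod_cast norm_ne_zero_iff.2 h
  refine ContinuousAt.congr (f := fun y : ℂ => y / (‖y‖ : ℂ)) ?_ ?_
  · exact continuousAt_id.div (Complex.continuous_ofReal.comp continuous_norm).continuousAt h1
  · filter_upwards [isOpen_ne.mem_nhds h] with y hy
    exact (cn_coe hy).symm

theorem cn_circle (z : Circle) : cn (z : ℂ) = z := by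
  have h : (z : ℂ) ≠ 0 := Circle.coe_ne_zero z
  apply Circle.ext
  rw [cn_coe h, Circle.norm_coe]
  simp

/-! ### The chart of the circle -/

/-- The chart `Circle - {-1} → (0, 1)`. -/
def xr (z : Circle) : ℝ := if 0 ≤ (z : ℂ).im then (3 - (z : ℂ).re) / 4 else (1 + (z : ℂ).re) / 4

theorem Circle.re_sq_add (z : Circle) : (z : ℂ).re ^ 2 + (z : ℂ).im ^ 2 = 1 := by
  have h : Complex.normSq (z : ℂ) = 1 := by
    rw [Complex.normSq_eq_norm_sq, Circle.norm_coe]
    norm_num
  rw [Complex.normSq_apply] at h
  nlinarith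

theorem Circle.re_le (z : Circle) : (z : ℂ).re ≤ 1 := by
  have h := Circle.re_sq_add z
  nlinarith [sq_nonneg (z : ℂ).im]

theorem Circle.le_re (z : Circle) : -1 ≤ (z : ℂ).re := by
  have h := Circle.re_sq_add z
  nlinarith [sq_nonneg (z : ℂ).im]

/-- The chart with values in the unit interval. -/
def xz (z : Circle) : I := ⟨xr z, by
  have h1 := Circle.re_le z
  have h2 := Circle.le_re z
  unfold xr
  split_ifs
  · constructor <;> linarith
  · constructor <;> linarith⟩

/-- The function of degree one. -/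
def wz (z : Circle) : Circle := Circle.exp (2 * Real.pi * (1 : ℤ) * cl (2 * xr z - 1 / 2))

theorem continuous_wz : Continuous wz := by
  have e : wz = fun z : Circle => if 0 ≤ (z : ℂ).im
      then Circle.exp (2 * Real.pi * (1 : ℤ) * cl (2 * ((3 - (z : ℂ).re) / 4) - 1 / 2))
      else Circle.exp (2 * Real.pi * (1 : ℤ) * cl (2 * ((1 + (z : ℂ).re) / 4) - 1 / 2)) := by
    funext z
    unfold wz xr
    split_ifs <;> rfl
  have hre : Continuous fun z : Circle => (z : ℂ).re :=
    Complex.continuous_re.comp continuous_subtype_val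
  have him : Continuous fun z : Circle => (z : ℂ).im :=
    Complex.continuous_im.comp continuous_subtype_val
  rw [e]
  refine Continuous.if_le ?_ ?_ continuous_const him ?_
  · exact Circle.exp.continuous.comp (continuous_const.mul (continuous_cl.comp (by fun_prop)))
  · exact Circle.exp.continuous.comp (continuous_const.mul (continuous_cl.comp (by fun_prop)))
  · intro z hz
    have h1 := Circle.re_sq_add z
    rw [← hz] at h1
    have h2 : ((z : ℂ).re - 1) * ((z : ℂ).re + 1) = 0 := by nlinarith
    rcases mul_eq_zero.1 h2 with h3 | h3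
    · have h4 : (z : ℂ).re = 1 := by linarith
      rw [h4]
      norm_num
    · have h4 : (z : ℂ).re = -1 := by linarith
      rw [h4, exp_cl 1 (Or.inr (by norm_num)), exp_cl 1 (Or.inl (by norm_num))]

theorem wz_one {z : Circle} (h : (z : ℂ).re ≤ 0) : wz z = 1 := by
  unfold wz xr
  split_ifs
  · exact exp_cl 1 (Or.inr (by linarith))
  · exact exp_cl 1 (Or.inl (by linarith))

theorem cl_nonneg (x : ℝ) : 0 ≤ cl x := le_max_left _ _

theorem cl_le_one (x : ℝ) : cl x ≤ 1 := max_le zero_le_one (min_le_left _ _)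

theorem le_cl {c x : ℝ} (h : c ≤ x) (h1 : c ≤ 1) : c ≤ cl x := le_max_of_le_right (le_min h1 h)

theorem cl_le' {c x : ℝ} (h : x ≤ c) (h1 : 0 ≤ c) : cl x ≤ c := max_le h1 ((min_le_right _ _).trans h)

theorem exp_im (x : ℝ) : ((Circle.exp x : Circle) : ℂ).im = Real.sin x := by
  rw [Circle.coe_exp, Complex.exp_ofReal_mul_I_im]

theorem exp_re (x : ℝ) : ((Circle.exp x : Circle) : ℂ).re = Real.cos x := by
  rw [Circle.coe_exp, Complex.exp_ofReal_mul_I_re]

theorem wz_ne (z : Circle) : wz z ≠ z := by
  intro h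
  have hpi := Real.pi_pos
  rcases lt_trichotomy (z : ℂ).im 0 with h1 | h1 | h1
  · -- the angle of `wz z` is in `[0, π]`
    have h2 : 0 ≤ ((wz z : Circle) : ℂ).im := by
      unfold wz xr
      rw [if_neg (not_le.2 h1), exp_im]
      have h3 : cl (2 * ((1 + (z : ℂ).re) / 4) - 1 / 2) ≤ 1 / 2 :=
        cl_le' (by linarith [Circle.re_le z]) (by norm_num)
      have h4 := cl_nonneg (2 * ((1 + (z : ℂ).re) / 4) - 1 / 2)
      push_cast
      refine Real.sin_nonneg_of_nonneg_of_le_pi ?_ ?_
      · positivity
      · nlinarith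
    rw [h] at h2
    linarith
  · have h5 := Circle.re_sq_add z
    rw [h1] at h5
    have h2 : ((z : ℂ).re - 1) * ((z : ℂ).re + 1) = 0 := by nlinarith
    rcases mul_eq_zero.1 h2 with h3 | h3
    · have h4 : (z : ℂ).re = 1 := by linarith
      have h6 : ((wz z : Circle) : ℂ).re = -1 := by
        unfold wz xr
        rw [if_pos h1.ge, exp_re, h4]
        have : cl (2 * ((3 - 1) / 4) - 1 / 2 : ℝ) = 1 / 2 := by
          unfold cl
          norm_num
        rw [this]
        push_cast
        rw [show 2 * Real.pi * 1 * (1 / 2) = Real.pi by ring, Real.cos_pi]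
      rw [h, h4] at h6
      norm_num at h6
    · have h4 : (z : ℂ).re = -1 := by linarith
      have h6 := wz_one (z := z) (by linarith)
      rw [h] at h6
      rw [h6] at h4
      norm_num at h4
  · have h2 : ((wz z : Circle) : ℂ).im ≤ 0 := by
      unfold wz xr
      rw [if_pos h1.le, exp_im]
      have h3 : 1 / 2 ≤ cl (2 * ((3 - (z : ℂ).re) / 4) - 1 / 2) :=
        le_cl (by linarith [Circle.re_le z]) (by norm_num)
      have h4 := cl_le_one (2 * ((3 - (z : ℂ).re) / 4) - 1 / 2)
      push_cast
      set c := cl (2 * ((3 - (z : ℂ).re) / 4) - 1 / 2)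
      have h5 : Real.sin (2 * Real.pi * 1 * c) = Real.sin (2 * Real.pi * c - 2 * Real.pi) := by
        rw [Real.sin_sub_two_pi]
        ring_nf
      rw [h5]
      refine Real.sin_nonpos_of_nonpos_of_neg_pi_le ?_ ?_
      · nlinarith
      · nlinarith
    rw [h] at h2
    linarith

/-- The straight line from `-z` to `wz z`. -/
def lz (t : ℝ) (z : Circle) : ℂ := (1 - t) * (-(z : ℂ)) + t * (wz z : ℂ)

theorem lz_ne {t : ℝ} (h0 : 0 ≤ t) (h1 : t ≤ 1) (z : Circle) : lz t z ≠ 0 := by
  intro h
  unfold lz at h
  have h2 : (t : ℂ) * (wz z : ℂ) = (1 - t) * (z : ℂ) := by linear_combination h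
  have h3 := congrArg norm h2
  rw [norm_mul, norm_mul, Circle.norm_coe, Circle.norm_coe, mul_one, mul_one, Complex.norm_real,
    ← Complex.ofReal_one, ← Complex.ofReal_sub, Complex.norm_real, Real.norm_eq_abs,
    Real.norm_eq_abs, abs_of_nonneg h0, abs_of_nonneg (by linarith)] at h3
  have h4 : t = 1 / 2 := by linarith
  rw [h4] at h2
  apply wz_ne z
  apply Circle.ext
  push_cast at h2
  linear_combination 2 * h2

/-- The homotopy from `-z` to `wz z`. -/
def fz (t : I) (z : Circle) : Circle := cn (lz t z)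

theorem continuous_fz : Continuous fun p : I × Circle => fz p.1 p.2 := by
  have h : Continuous fun p : I × Circle => lz p.1 p.2 := by
    unfold lz
    have h1 : Continuous fun p : I × Circle => (((p.1 : I) : ℝ) : ℂ) :=
      Complex.continuous_ofReal.comp (continuous_subtype_val.comp continuous_fst)
    have h2 : Continuous fun p : I × Circle => ((p.2 : Circle) : ℂ) :=
      continuous_subtype_val.comp continuous_snd
    have h3 : Continuous fun p : I × Circle => ((wz p.2 : Circle) : ℂ) :=
      continuous_subtype_val.comp (continuous_wz.comp continuous_snd)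
    exact ((continuous_const.sub h1).mul h2.neg).add (h1.mul h3)
  rw [continuous_iff_continuousAt]
  intro p
  exact ContinuousAt.comp (g := cn) (f := fun p : I × Circle => lz p.1 p.2)
    (continuousAt_cn (lz_ne p.1.2.1 p.1.2.2 _)) h.continuousAt

theorem fz_zero (z : Circle) : (fz 0 z : ℂ) = -z := by
  unfold fz lz
  rw [Set.Icc.coe_zero]
  have h : (1 - ((0 : ℝ) : ℂ)) * (-(z : ℂ)) + ((0 : ℝ) : ℂ) * (wz z : ℂ) = -(z : ℂ) := by
    push_cast
    ring
  rw [h, cn_coe (neg_ne_zero.2 (Circle.coe_ne_zero z)), norm_neg, Circle.norm_coe]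
  simp

theorem fz_one (z : Circle) : fz 1 z = wz z := by
  unfold fz lz
  rw [Set.Icc.coe_one]
  have h : (1 - ((1 : ℝ) : ℂ)) * (-(z : ℂ)) + ((1 : ℝ) : ℂ) * (wz z : ℂ) = (wz z : ℂ) := by
    push_cast
    ring
  rw [h, cn_circle]

/-! ### Functions on the two-sphere -/

/-- `d₀ + i d₁` -/
def qd (d : S2) : ℂ := (d.1 0 : ℂ) + Complex.I * d.1 1

theorem continuous_qd : Continuous qd := by
  unfold qd
  exact (Complex.continuous_ofReal.comp (S2.continuous_apply 0)).add
    (continuous_const.mul (Complex.continuous_ofReal.comp (S2.continuous_apply 1)))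

theorem normSq_qd (d : S2) : Complex.normSq (qd d) = 1 - d.1 2 ^ 2 := by
  have h := d.2
  have h1 : (qd d).re = d.1 0 := by simp [qd]
  have h2 : (qd d).im = d.1 1 := by simp [qd]
  rw [Complex.normSq_apply, h1, h2]
  linarith

theorem qd_ne {d : S2} (h : |d.1 2| ≠ 1) : qd d ≠ 0 := by
  intro h0
  have h1 := normSq_qd d
  rw [h0, map_zero] at h1
  apply h
  have h2 := sq_abs (d.1 2)
  have h3 := abs_nonneg (d.1 2)
  have h4 : (|d.1 2| - 1) * (|d.1 2| + 1) = 0 := by nlinarith
  rcases mul_eq_zero.1 h4 with h5 | h5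
  · linarith
  · linarith

theorem S2.abs_le (d : S2) : |d.1 2| ≤ 1 := by
  rw [_root_.abs_le]
  have h := d.2
  constructor
  · nlinarith [sq_nonneg (d.1 0), sq_nonneg (d.1 1)]
  · nlinarith [sq_nonneg (d.1 0), sq_nonneg (d.1 1)]

/-- `|d₂|` -/
def ab2 (d : S2) : I := ⟨|d.1 2|, abs_nonneg _, S2.abs_le d⟩

theorem continuous_ab2 : Continuous ab2 :=
  Continuous.subtype_mk (S2.continuous_apply 2).abs _

theorem ab2_one {d : S2} : ab2 d = 1 ↔ |d.1 2| = 1 := by
  constructor
  · intro h
    exact congrArg Subtype.val h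
  · intro h
    exact Subtype.ext h

/-- The frame on the northern hemisphere and its deformation. -/
def al (t : ℝ) (d : S2) : ℂ × ℂ := (((1 + d.1 2 : ℝ) : ℂ), (1 - (t : ℂ)) * qd d)

theorem al_ne (t : ℝ) {d : S2} (h : d.1 2 ≠ -1) : al t d ≠ 0 := by
  intro h0
  have h1 : ((1 + d.1 2 : ℝ) : ℂ) = 0 := congrArg Prod.fst h0
  have h2 : 1 + d.1 2 = 0 := by exact_mod_cast h1
  exact h (by linarith)

theorem continuous_al : Continuous fun p : I × S2 => al p.1 p.2 := by
  unfold al
  refine Continuous.prodMk ?_ ?_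
  · exact Complex.continuous_ofReal.comp (continuous_const.add
      ((S2.continuous_apply 2).comp continuous_snd))
  · exact (continuous_const.sub (Complex.continuous_ofReal.comp
      (continuous_subtype_val.comp continuous_fst))).mul (continuous_qd.comp continuous_snd)

/-- The frame on the southern hemisphere. -/
def be (d : S2) : ℂ × ℂ := ((starRingEnd ℂ) (qd d), ((1 - d.1 2 : ℝ) : ℂ))

theorem be_ne {d : S2} (h : d.1 2 ≠ 1) : be d ≠ 0 := by
  intro h0
  have h1 : ((1 - d.1 2 : ℝ) : ℂ) = 0 := congrArg Prod.snd h0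
  have h2 : 1 - d.1 2 = 0 := by exact_mod_cast h1
  exact h (by linarith)

theorem continuous_be : Continuous be := by
  unfold be
  exact (Complex.continuous_conj.comp continuous_qd).prodMk (Complex.continuous_ofReal.comp
    (continuous_const.sub (S2.continuous_apply 2)))

theorem al_zero_sq (d : S2) : Complex.normSq (al 0 d).1 + Complex.normSq (al 0 d).2 =
    2 * (1 + d.1 2) := by
  unfold al
  rw [Complex.ofReal_zero, sub_zero, one_mul, normSq_qd, Complex.normSq_ofReal]
  ring

theorem be_sq (d : S2) : Complex.normSq (be d).1 + Complex.normSq (be d).2 =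
    2 * (1 - d.1 2) := by
  unfold be
  rw [Complex.normSq_conj, normSq_qd, Complex.normSq_ofReal]
  ring

theorem conj_qd (d : S2) : (starRingEnd ℂ) (qd d) = (d.1 0 : ℂ) - Complex.I * d.1 1 := by
  unfold qd
  rw [map_add, map_mul, Complex.conj_I, Complex.conj_ofReal, Complex.conj_ofReal]
  ring

theorem qd_mul (d : S2) : qd d * (starRingEnd ℂ) (qd d) = (1 - d.1 2) * (1 + d.1 2) := by
  rw [Complex.mul_conj, normSq_qd]
  push_cast
  ring

theorem al_mv {d : S2} (h : d.1 2 ≠ -1) : (nv (al 0 d)).mv = lnm d.1 := by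
  have h1 : (1 + (d.1 2 : ℂ)) ≠ 0 := by
    intro h0
    have h2 : 1 + d.1 2 = 0 := by exact_mod_cast h0
    exact h (by linarith)
  have hq := qd_mul d
  ext b b'
  rw [nv_mv (al_ne 0 h), al_zero_sq]
  unfold lnm al
  rw [if_neg d.ne_zero, d.nrm_eq]
  push_cast
  cases b <;> cases b' <;>
    simp only [sub_zero, one_mul, Bool.false_eq_true, if_false, if_true, map_add, map_one,
      Complex.conj_ofReal, conj_qd, div_one, mul_one]
  · field_simp
  · field_simp
  · show qd d * (1 + (d.1 2 : ℂ)) / _ = _
    unfold qd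
    field_simp
  · rw [← conj_qd, hq]
    field_simp

theorem be_mv {d : S2} (h : d.1 2 ≠ 1) : (nv (be d)).mv = lnm d.1 := by
  have h1 : (1 - (d.1 2 : ℂ)) ≠ 0 := by
    intro h0
    have h2 : 1 - d.1 2 = 0 := by exact_mod_cast h0
    exact h (by linarith)
  have hq := qd_mul d
  ext b b'
  rw [nv_mv (be_ne h), be_sq]
  unfold lnm be
  rw [if_neg d.ne_zero, d.nrm_eq]
  push_cast
  cases b <;> cases b' <;>
    simp only [Bool.false_eq_true, if_false, if_true, map_sub, map_one,
      Complex.conj_ofReal, Complex.conj_conj, div_one, mul_one]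
  · rw [mul_comm, hq]
    field_simp
  · rw [conj_qd]
    field_simp
  · unfold qd
    field_simp
  · field_simp

/-- The frames of the tautological line. -/
def fr (d : S2) : SV := if 0 ≤ d.1 2 then nv (al 0 d) else nv (be d)

theorem fr_mv (d : S2) : (fr d).mv = lnm d.1 := by
  unfold fr
  split_ifs with h
  · exact al_mv (by linarith)
  · exact be_mv (by linarith)

theorem continuous_lnm : Continuous fun d : S2 => lnm d.1 :=
  continuous_subtype_val.comp continuous_ln

theorem continuousAt_al0 {d : S2} (h : d.1 2 ≠ -1) : ContinuousAt (fun d => nv (al 0 d)) d := by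
  have h1 : Continuous fun d : S2 => al 0 d := by
    have h2 : Continuous fun d : S2 => ((0 : I), d) := by fun_prop
    exact Continuous.comp (g := fun p : I × S2 => al p.1 p.2) (f := fun d : S2 => ((0 : I), d))
      continuous_al h2
  exact ContinuousAt.comp (g := nv) (f := fun d => al 0 d) (continuousAt_nv (al_ne 0 h))
    h1.continuousAt

theorem fr_cont {d : S2} (h : d.1 2 ≠ 0) : ContinuousAt fr d := by
  rcases lt_or_gt_of_ne h with h1 | h1
  · refine ContinuousAt.congr (f := fun d => nv (be d)) ?_ ?_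
    · exact ContinuousAt.comp (g := nv) (f := be) (continuousAt_nv (be_ne (by linarith)))
        continuous_be.continuousAt
    · filter_upwards [(S2.continuous_apply 2).continuousAt.eventually (gt_mem_nhds h1)] with d' hd'
      unfold fr
      rw [if_neg (not_le.2 hd')]
  · refine ContinuousAt.congr (f := fun d => nv (al 0 d)) (continuousAt_al0 (by linarith)) ?_
    filter_upwards [(S2.continuous_apply 2).continuousAt.eventually (lt_mem_nhds h1)] with d' hd'
    unfold fr
    rw [if_pos (le_of_lt hd')]

/-- The equator coordinate. -/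
def za (d : S2) : Circle := cn (-(starRingEnd ℂ) (qd d))

theorem za_cont {d : S2} (h : |d.1 2| ≠ 1) : ContinuousAt za d := by
  have h1 : -(starRingEnd ℂ) (qd d) ≠ 0 := by
    rw [neg_ne_zero, Ne, map_eq_zero]
    exact qd_ne h
  exact ContinuousAt.comp (g := cn) (f := fun d => -(starRingEnd ℂ) (qd d)) (continuousAt_cn h1)
    (Complex.continuous_conj.comp continuous_qd).neg.continuousAt

/-! ### Homotopies of data -/

/-- Data over `I × S2`. -/
structure Dh where
  /-- the radius -/
  r : I × S2 → I
  /-- the vector -/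
  v : I × S2 → SV
  cr : Continuous r
  cc : ∀ p, r p = 1 ∨ ContinuousAt v p ∨ (r p = 0 ∧ ContinuousAt (fun p => (v p).mv) p)

/-- The data for a fixed time. -/
def Dh.at (H : Dh) (t : I) : Da where
  r d := H.r (t, d)
  v d := H.v (t, d)
  cr := H.cr.comp (by fun_prop)
  cc d := by
    have hg : Continuous fun d : S2 => (t, d) := by fun_prop
    rcases H.cc (t, d) with h | h | ⟨h, h'⟩
    · exact Or.inl h
    · exact Or.inr (Or.inl (ContinuousAt.comp (g := H.v) (f := fun d => (t, d)) h hg.continuousAt))
    · exact Or.inr (Or.inr ⟨h, ContinuousAt.comp (g := fun p => (H.v p).mv) (f := fun d => (t, d)) h'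
        hg.continuousAt⟩)

theorem Dh.hom (H : Dh) : GenLoop.Homotopic (LL (H.at 0)) (LL (H.at 1)) :=
  LL_homotopic H.r H.v H.cr H.cc (fun _ => rfl) fun _ => rfl

theorem cont_snd {X : Type} [TopologicalSpace X] {f : S2 → X} {t : I} {d : S2}
    (h : ContinuousAt f d) : ContinuousAt (fun p : I × S2 => f p.2) (t, d) :=
  ContinuousAt.comp (g := f) (f := Prod.snd) h continuousAt_snd

theorem ev_pos {d : S2} (h : 0 < d.1 2) (t : I) : ∀ᶠ p : I × S2 in 𝓝 (t, d), 0 < p.2.1 2 :=
  ((S2.continuous_apply 2).comp continuous_snd).continuousAt.eventually (lt_mem_nhds h)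

theorem ev_neg {d : S2} (h : d.1 2 < 0) (t : I) : ∀ᶠ p : I × S2 in 𝓝 (t, d), p.2.1 2 < 0 :=
  ((S2.continuous_apply 2).comp continuous_snd).continuousAt.eventually (gt_mem_nhds h)

/-- First homotopy: the point splits into four points. -/
def H1 : Dh where
  r p := p.1 * ab2 p.2
  v p := fr p.2
  cr := continuous_fst.mul (continuous_ab2.comp continuous_snd)
  cc := by
    rintro ⟨t, d⟩
    by_cases h : d.1 2 = 0
    · refine Or.inr (Or.inr ⟨?_, ?_⟩)
      · have h1 : ab2 d = 0 := Subtype.ext (by
          show |d.1 2| = 0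
          rw [h, abs_zero])
        show t * ab2 d = 0
        rw [h1, mul_zero]
      · have e : (fun p : I × S2 => (fr p.2).mv) = fun p => lnm p.2.1 := by
          funext p
          exact fr_mv _
        show ContinuousAt (fun p : I × S2 => (fr p.2).mv) (t, d)
        rw [e]
        exact cont_snd continuous_lnm.continuousAt
    · exact Or.inr (Or.inl (cont_snd (fr_cont h)))

/-- Second homotopy: the frames are deformed to multiples of `(1, 0)`. -/
def H2 : Dh where
  r p := ab2 p.2
  v p := sm (if 0 ≤ p.2.1 2 then 1 else fz p.1 (za p.2)) (nv (al p.1 p.2))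
  cr := continuous_ab2.comp continuous_snd
  cc := by
    rintro ⟨t, d⟩
    by_cases h : |d.1 2| = 1
    · exact Or.inl (ab2_one.2 h)
    have hd : d.1 2 ≠ -1 := by
      intro h'
      rw [h'] at h
      norm_num at h
    have ha : ContinuousAt (fun p : I × S2 => nv (al p.1 p.2)) (t, d) :=
      ContinuousAt.comp (g := nv) (f := fun p : I × S2 => al p.1 p.2)
        (continuousAt_nv (al_ne t hd)) continuous_al.continuousAt
    rcases lt_trichotomy (d.1 2) 0 with h1 | h1 | h1
    · refine Or.inr (Or.inl ?_)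
      refine ContinuousAt.congr (f := fun p : I × S2 => sm (fz p.1 (za p.2)) (nv (al p.1 p.2)))
        ?_ ?_
      · have hz : ContinuousAt (fun p : I × S2 => fz p.1 (za p.2)) (t, d) :=
          ContinuousAt.comp (g := fun p : I × Circle => fz p.1 p.2)
            (f := fun p : I × S2 => (p.1, za p.2)) continuous_fz.continuousAt
            (continuousAt_fst.prodMk (cont_snd (za_cont h)))
        exact ContinuousAt.comp (g := fun p : Circle × SV => sm p.1 p.2)
          (f := fun p : I × S2 => (fz p.1 (za p.2), nv (al p.1 p.2))) continuous_sm.continuousAt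
          (hz.prodMk ha)
      · filter_upwards [ev_neg h1 t] with p hp
        rw [if_neg (not_le.2 hp)]
    · refine Or.inr (Or.inr ⟨?_, ?_⟩)
      · exact Subtype.ext (by
          show |d.1 2| = 0
          rw [h1, abs_zero])
      · simp only [sm_mv]
        exact ContinuousAt.comp (g := SV.mv) (f := fun p : I × S2 => nv (al p.1 p.2))
          SV.continuous_mv.continuousAt ha
    · refine Or.inr (Or.inl ?_)
      refine ContinuousAt.congr (f := fun p : I × S2 => sm 1 (nv (al p.1 p.2))) ?_ ?_
      · exact ContinuousAt.comp (g := fun p : Circle × SV => sm p.1 p.2)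
          (f := fun p : I × S2 => ((1 : Circle), nv (al p.1 p.2))) continuous_sm.continuousAt
          (continuousAt_const.prodMk ha)
      · filter_upwards [ev_pos h1 t] with p hp
        rw [if_pos hp.le]

/-- The whisker. -/
def wk (p : I × S2) : I := max (ab2 p.2) (pI (-((p.1 : ℝ) * (za p.2 : ℂ).re)))

theorem continuous_wk : Continuous wk := by
  rw [continuous_iff_continuousAt]
  rintro ⟨t, d⟩
  by_cases h : |d.1 2| = 1
  · have h1 : ab2 d = 1 := ab2_one.2 h
    have h2 : wk (t, d) = 1 := le_antisymm le_top (by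
      rw [← h1]
      exact le_max_left _ _)
    show Tendsto wk (𝓝 (t, d)) (𝓝 (wk (t, d)))
    rw [h2]
    have h3 : Tendsto (fun p : I × S2 => ab2 p.2) (𝓝 (t, d)) (𝓝 1) := by
      have h4 := (continuous_ab2.comp (continuous_snd (X := I) (Y := S2))).tendsto (t, d)
      have h5 : (ab2 ∘ Prod.snd) (t, d) = 1 := h1
      rwa [h5] at h4
    exact tendsto_of_tendsto_of_tendsto_of_le_of_le h3 tendsto_const_nhds
      (fun p => le_max_left _ _) fun p => le_top
  · unfold wk
    refine Filter.Tendsto.max (continuous_ab2.comp continuous_snd).continuousAt ?_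
    refine ContinuousAt.comp (g := pI) (f := fun p : I × S2 => -((p.1 : ℝ) * (za p.2 : ℂ).re))
      continuous_pI.continuousAt ?_
    refine ContinuousAt.neg (ContinuousAt.mul ?_ ?_)
    · exact (continuous_subtype_val.comp continuous_fst).continuousAt
    · have h1 : Continuous fun z : Circle => (z : ℂ).re :=
        Complex.continuous_re.comp continuous_subtype_val
      exact cont_snd (ContinuousAt.comp (g := fun z : Circle => (z : ℂ).re) (f := za)
        h1.continuousAt (za_cont h))

/-- Third homotopy: the whisker is added. -/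
def H3 : Dh where
  r := wk
  v p := ev (if 0 ≤ p.2.1 2 then 1 else wz (za p.2))
  cr := continuous_wk
  cc := by
    rintro ⟨t, d⟩
    by_cases h : |d.1 2| = 1
    · left
      refine le_antisymm le_top ?_
      rw [← ab2_one.2 h]
      exact le_max_left _ _
    have hw : ContinuousAt (fun p : I × S2 => wz (za p.2)) (t, d) :=
      cont_snd (ContinuousAt.comp (g := wz) (f := za) continuous_wz.continuousAt (za_cont h))
    rcases lt_trichotomy (d.1 2) 0 with h1 | h1 | h1
    · refine Or.inr (Or.inl ?_)
      refine ContinuousAt.congr (f := fun p : I × S2 => ev (wz (za p.2))) ?_ ?_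
      · exact ContinuousAt.comp (g := ev) (f := fun p : I × S2 => wz (za p.2))
          continuous_ev.continuousAt hw
      · filter_upwards [ev_neg h1 t] with p hp
        rw [if_neg (not_le.2 hp)]
    · by_cases h2 : (za d : ℂ).re < 0
      · refine Or.inr (Or.inl ?_)
        refine ContinuousAt.congr (f := fun p : I × S2 => ev 1) continuousAt_const ?_
        have h3 : ∀ᶠ p : I × S2 in 𝓝 (t, d), (za p.2 : ℂ).re < 0 := by
          have h4 : Continuous fun z : Circle => (z : ℂ).re :=
            Complex.continuous_re.comp continuous_subtype_val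
          exact (cont_snd (ContinuousAt.comp (g := fun z : Circle => (z : ℂ).re) (f := za)
            h4.continuousAt (za_cont h))).eventually (gt_mem_nhds h2)
        filter_upwards [h3] with p hp
        split_ifs
        · rfl
        · rw [wz_one hp.le]
      · refine Or.inr (Or.inr ⟨?_, ?_⟩)
        · show max (ab2 d) (pI (-((t : ℝ) * (za d : ℂ).re))) = 0
          have h3 : ab2 d = 0 := Subtype.ext (by
            show |d.1 2| = 0
            rw [h1, abs_zero])
          rw [h3, pI_le, max_self]
          rw [not_lt] at h2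
          have := mul_nonneg t.2.1 h2
          linarith
        · have e : (fun p : I × S2 => (ev (if 0 ≤ p.2.1 2 then 1 else wz (za p.2))).mv) =
              fun _ => (ev 1).mv := by
            funext p
            rw [← sm_ev, sm_mv]
          show ContinuousAt (fun p : I × S2 => (ev (if 0 ≤ p.2.1 2 then 1 else
            wz (za p.2))).mv) (t, d)
          rw [e]
          exact continuousAt_const
    · refine Or.inr (Or.inl ?_)
      refine ContinuousAt.congr (f := fun p : I × S2 => ev 1) continuousAt_const ?_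
      filter_upwards [ev_pos h1 t] with p hp
      rw [if_pos hp.le]

end Pool.Agent.Tate.R2
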