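import Pool.Agent.Lib.Tate.R.R2.Ho
import Pool.Agent.Lib.Tate.R.R3.Comp

/-!
# C42 (MP_071d69_gt), block R2 (helper14): the map of spheres

`kap`: the map of the three-sphere to itself in the coordinates radius, height, angle;
`F0_homotopic`: the loop `LL (H1.at 0)` is homotopic to `cm kap (lp c2 (Pl 1 0))`.
-/

set_option linter.unusedSectionVars false

open Topology unitInterval Filter Set
open scoped Topology.Homotopy OnePoint ZeroAtInfty

noncomputable section

namespace Pool.Agent.Tate.R2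

open R3

/-! ### The ends of the homotopies -/

theorem fz_za {d : S2} (h : |d.1 2| ≠ 1) :
    (fz 0 (za d) : ℂ) = (starRingEnd ℂ) (qd d) / (‖qd d‖ : ℂ) := by
  have h1 : -(starRingEnd ℂ) (qd d) ≠ 0 := by
    rw [neg_ne_zero, Ne, map_eq_zero]
    exact qd_ne h
  rw [fz_zero]
  unfold za
  rw [cn_coe h1, norm_neg, Complex.norm_conj]
  ring

/-- The two frames differ by a number of norm one. -/
theorem be_al {d : S2} (h : |d.1 2| ≠ 1) : sm (fz 0 (za d)) (nv (al 0 d)) = nv (be d) := by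
  have hq := qd_ne h
  have hd : |d.1 2| < 1 := lt_of_le_of_ne (S2.abs_le d) h
  rw [abs_lt] at hd
  have hn : 0 < ‖qd d‖ := norm_pos_iff.2 hq
  have hn2 : ‖qd d‖ ^ 2 = (1 - d.1 2) * (1 + d.1 2) := by
    rw [← Complex.normSq_eq_norm_sq, normSq_qd]
    ring
  have ha : al 0 d ≠ 0 := al_ne 0 (by linarith)
  have hb : be d ≠ 0 := be_ne (by linarith)
  have hA := nn_pos ha
  have hB := nn_pos hb
  have hA2 : nn (al 0 d) ^ 2 = 2 * (1 + d.1 2) := by rw [nn_sq, al_zero_sq]
  have hB2 : nn (be d) ^ 2 = 2 * (1 - d.1 2) := by rw [nn_sq, be_sq]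
  have e1 : (1 + d.1 2) * nn (be d) = ‖qd d‖ * nn (al 0 d) := by
    have h1 : 0 ≤ (1 + d.1 2) * nn (be d) := mul_nonneg (by linarith) hB.le
    have h2 : 0 ≤ ‖qd d‖ * nn (al 0 d) := mul_nonneg hn.le hA.le
    refine (sq_eq_sq₀ h1 h2).1 ?_
    rw [mul_pow, mul_pow, hB2, hA2, hn2]
    ring
  have e2 : ‖qd d‖ * nn (be d) = (1 - d.1 2) * nn (al 0 d) := by
    have h1 : 0 ≤ ‖qd d‖ * nn (be d) := mul_nonneg hn.le hB.le
    have h2 : 0 ≤ (1 - d.1 2) * nn (al 0 d) := mul_nonneg (by linarith) hA.le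
    refine (sq_eq_sq₀ h1 h2).1 ?_
    rw [mul_pow, mul_pow, hB2, hA2, hn2]
    ring
  have c1 : (1 + (d.1 2 : ℂ)) * nn (be d) = ‖qd d‖ * nn (al 0 d) := by exact_mod_cast e1
  have c2 : (‖qd d‖ : ℂ) * nn (be d) = (1 - d.1 2) * nn (al 0 d) := by exact_mod_cast e2
  have n0 : (‖qd d‖ : ℂ) ≠ 0 := by exact_mod_cast hn.ne'
  have nA : (nn (al 0 d) : ℂ) ≠ 0 := by exact_mod_cast hA.ne'
  have nB : (nn (be d) : ℂ) ≠ 0 := by exact_mod_cast hB.ne'
  have cq : (starRingEnd ℂ) (qd d) * qd d = (‖qd d‖ : ℂ) ^ 2 := by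
    rw [mul_comm, qd_mul]
    exact_mod_cast hn2.symm
  rw [nv_of ha, nv_of hb]
  refine SV.ext' ?_ ?_
  · show (fz 0 (za d) : ℂ) * ((((1 + d.1 2 : ℝ) : ℂ)) / nn (al 0 d)) =
      (starRingEnd ℂ) (qd d) / nn (be d)
    rw [fz_za h]
    push_cast
    field_simp
    linear_combination (starRingEnd ℂ) (qd d) * c1
  · show (fz 0 (za d) : ℂ) * (((1 - ((0 : ℝ) : ℂ)) * qd d) / nn (al 0 d)) =
      ((1 - d.1 2 : ℝ) : ℂ) / nn (be d)
    rw [fz_za h]
    push_cast
    rw [sub_zero, one_mul]
    field_simp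
    linear_combination nn (be d) * cq + ‖qd d‖ * c2

theorem ends12 : LL (H1.at 1) = LL (H2.at 0) := by
  ext s
  set d := dr (betu s) with hd
  show MW (bets s) (1 * ab2 d) (fr d) =
    MW (bets s) (ab2 d) (sm (if 0 ≤ d.1 2 then 1 else fz 0 (za d)) (nv (al ((0 : I) : ℝ) d)))
  rw [one_mul, Set.Icc.coe_zero]
  by_cases h : |d.1 2| = 1
  · rw [MW_infty _ (Or.inr (ab2_one.2 h)), MW_infty _ (Or.inr (ab2_one.2 h))]
  · congr 1
    unfold fr
    split_ifs with h1
    · rw [sm_one]
    · rw [be_al h]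

theorem ends23 : LL (H2.at 1) = LL (H3.at 0) := by
  ext s
  set d := dr (betu s) with hd
  show MW (bets s) (ab2 d) (sm (if 0 ≤ d.1 2 then 1 else fz 1 (za d)) (nv (al ((1 : I) : ℝ) d))) =
    MW (bets s) (wk (0, d)) (ev (if 0 ≤ d.1 2 then 1 else wz (za d)))
  have h0 : wk (0, d) = ab2 d := by
    unfold wk
    rw [pI_le (by simp), max_eq_left]
    exact (ab2 d).2.1
  rw [h0]
  by_cases h : |d.1 2| = 1
  · rw [MW_infty _ (Or.inr (ab2_one.2 h)), MW_infty _ (Or.inr (ab2_one.2 h))]
  · have hd1 : |d.1 2| < 1 := lt_of_le_of_ne (S2.abs_le d) h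
    rw [abs_lt] at hd1
    have h1 : al ((1 : I) : ℝ) d = (((1 + d.1 2 : ℝ) : ℂ), 0) := by
      unfold al
      rw [Set.Icc.coe_one]
      push_cast
      rw [sub_self, zero_mul]
    rw [h1, nv_real (by linarith), sm_ev, fz_one]

/-! ### The chart of the two-sphere -/

/-- The height. -/
def yc (d : S2) : I := ⟨(1 - d.1 2) / 2, by
  have h := S2.abs_le d
  rw [_root_.abs_le] at h
  constructor <;> linarith⟩

theorem continuous_yc : Continuous yc :=
  Continuous.subtype_mk ((continuous_const.sub (S2.continuous_apply 2)).div_const _) _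

/-- The chart of the sphere in the coordinates height and angle. -/
def k2 (d : S2) : Unit ⊕ Unit → I := Sum.elim (fun _ => yc d) fun _ => xz (za d)

theorem xz_cont {z : Circle} (h : xz z ≠ 1) : ContinuousAt xz z := by
  refine Topology.IsInducing.subtypeVal.continuousAt_iff.2 ?_
  have hre : Continuous fun z : Circle => (z : ℂ).re :=
    Complex.continuous_re.comp continuous_subtype_val
  have him : Continuous fun z : Circle => (z : ℂ).im :=
    Complex.continuous_im.comp continuous_subtype_val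
  show ContinuousAt xr z
  rcases lt_trichotomy (z : ℂ).im 0 with h1 | h1 | h1
  · refine ContinuousAt.congr (f := fun z : Circle => (1 + (z : ℂ).re) / 4) ?_ ?_
    · exact ((continuous_const.add hre).div_const _).continuousAt
    · filter_upwards [him.continuousAt.eventually (gt_mem_nhds h1)] with z' hz'
      unfold xr
      rw [if_neg (not_le.2 hz')]
  · have h5 := Circle.re_sq_add z
    rw [h1] at h5
    have h2 : ((z : ℂ).re - 1) * ((z : ℂ).re + 1) = 0 := by nlinarith
    rcases mul_eq_zero.1 h2 with h3 | h3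
    · have h4 : (z : ℂ).re = 1 := by linarith
      have h6 : xr z = 1 / 2 := by
        unfold xr
        rw [if_pos h1.ge, h4]
        norm_num
      have t1 : Tendsto (fun z : Circle => (1 + (z : ℂ).re) / 4) (𝓝 z) (𝓝 (1 / 2)) := by
        have := ((continuous_const.add hre).div_const (4 : ℝ)).tendsto (x := z) (f := fun z : Circle => (1 + (z : ℂ).re) / 4)
        rw [h4] at this
        norm_num at this
        norm_num
        exact this
      have t2 : Tendsto (fun z : Circle => (3 - (z : ℂ).re) / 4) (𝓝 z) (𝓝 (1 / 2)) := by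
        have := ((continuous_const.sub hre).div_const (4 : ℝ)).tendsto (x := z) (f := fun z : Circle => (3 - (z : ℂ).re) / 4)
        rw [h4] at this
        norm_num at this
        norm_num
        exact this
      show Tendsto xr (𝓝 z) (𝓝 (xr z))
      rw [h6]
      refine tendsto_of_tendsto_of_tendsto_of_le_of_le t1 t2 (fun z' => ?_) fun z' => ?_
      · show (1 + (z' : ℂ).re) / 4 ≤ xr z'
        have := Circle.re_le z'
        unfold xr
        split_ifs <;> linarith
      · show xr z' ≤ (3 - (z' : ℂ).re) / 4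
        have := Circle.re_le z'
        unfold xr
        split_ifs <;> linarith
    · exfalso
      apply h
      apply Subtype.ext
      show xr z = 1
      unfold xr
      rw [if_pos h1.ge, show (z : ℂ).re = -1 by linarith]
      norm_num
  · refine ContinuousAt.congr (f := fun z : Circle => (3 - (z : ℂ).re) / 4) ?_ ?_
    · exact ((continuous_const.sub hre).div_const _).continuousAt
    · filter_upwards [him.continuousAt.eventually (lt_mem_nhds h1)] with z' hz'
      unfold xr
      rw [if_pos (le_of_lt hz')]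

theorem bd_xz (z : Circle) : bd (fun _ : Unit => xz z) = (3 - (z : ℂ).re) * (1 + (z : ℂ).re) / 16 := by
  unfold bd
  rw [Fintype.prod_unique]
  show xr z * (1 - xr z) = _
  unfold xr
  split_ifs <;> ring

theorem yc_abs {d : S2} (h : (fun _ : Unit => yc d) ∉ Cube.boundary Unit) : |d.1 2| ≠ 1 := by
  intro h1
  apply h
  rcases eq_or_eq_neg_of_abs_eq h1 with h2 | h2
  · refine ⟨(), Or.inl (Subtype.ext ?_)⟩
    show (1 - d.1 2) / 2 = 0
    rw [h2]
    norm_num
  · refine ⟨(), Or.inr (Subtype.ext ?_)⟩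
    show (1 - d.1 2) / 2 = 1
    rw [h2]
    norm_num

theorem KC_k2 : KC k2 := by
  refine KC.sum (κ := fun d : S2 => fun _ : Unit => yc d) (κ' := fun d : S2 => fun _ : Unit => xz (za d))
    (KC.of_continuous (continuous_pi fun _ => continuous_yc)) ?_ ?_
  · intro d h1 h2
    have h3 : xz (za d) ≠ 1 := fun h => h2 ⟨(), Or.inr h⟩
    refine continuousAt_pi.2 fun _ => ?_
    exact ContinuousAt.comp (g := xz) (f := za) (xz_cont h3) (za_cont (yc_abs h1))
  · intro d h1
    simp only [bd_xz]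
    have hre : Continuous fun z : Circle => (3 - (z : ℂ).re) * (1 + (z : ℂ).re) / 16 := by
      have h0 : Continuous fun z : Circle => (z : ℂ).re :=
        Complex.continuous_re.comp continuous_subtype_val
      fun_prop
    exact ContinuousAt.comp (g := fun z : Circle => (3 - (z : ℂ).re) * (1 + (z : ℂ).re) / 16)
      (f := za) hre.continuousAt (za_cont (yc_abs h1))

/-- The index set of the coordinates radius, height, angle. -/
abbrev N3 : Type := Unit ⊕ (Unit ⊕ Unit)

/-- The map of the cubes. -/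
def ks (s : Unit × Fin 3 → I) : N3 → I :=
  Sum.elim (fun _ => rad fun i => s ((), i)) (k2 (dr (ctr fun i => s ((), i))))

theorem continuous_ctr' : Continuous fun s : Unit × Fin 3 → I => ctr fun i => s ((), i) :=
  continuous_ctr.comp (by fun_prop)

theorem ctr_ne {s : Unit × Fin 3 → I}
    (h : (fun _ : Unit => rad fun i => s ((), i)) ∉ Cube.boundary Unit) :
    (ctr fun i => s ((), i)) ≠ 0 := fun h1 => h ⟨(), Or.inl (rad_eq_zero h1)⟩

theorem KC_ks : KC ks := by
  have hd : ∀ s : Unit × Fin 3 → I, (fun _ : Unit => rad fun i => s ((), i)) ∉ Cube.boundary Unit →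
      ContinuousAt (fun s : Unit × Fin 3 → I => dr (ctr fun i => s ((), i))) s := fun s h =>
    ContinuousAt.comp (g := dr) (f := fun s : Unit × Fin 3 → I => ctr fun i => s ((), i))
      (continuousAt_dr (ctr_ne h)) continuous_ctr'.continuousAt
  refine KC.sum (κ := fun s : Unit × Fin 3 → I => fun _ : Unit => rad fun i => s ((), i))
    (κ' := fun s : Unit × Fin 3 → I => k2 (dr (ctr fun i => s ((), i))))
    (KC.of_continuous (continuous_pi fun _ => continuous_rad.comp (by fun_prop))) ?_ ?_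
  · intro s h1 h2
    exact ContinuousAt.comp (g := k2) (f := fun s : Unit × Fin 3 → I => dr (ctr fun i => s ((), i)))
      (KC_k2.at' _ h2) (hd s h1)
  · intro s h1
    exact ContinuousAt.comp (g := fun d => bd (k2 d))
      (f := fun s : Unit × Fin 3 → I => dr (ctr fun i => s ((), i)))
      KC_k2.bdc.continuousAt (hd s h1)

/-- The map of spheres. -/
def kap : SM (Unit × Fin 3) N3 where
  f := ks
  kc := KC_ks
  bdry s hs := by
    obtain ⟨⟨_, i⟩, hi⟩ := hs
    exact ⟨Sum.inl (), Or.inr (rad_bdry ⟨i, hi⟩)⟩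

/-- The coordinates. -/
def c2 : Co LB (N3 ⊕ Unit) where
  qi := Sum.elim (fun _ => Sum.inl (Sum.inl ())) fun _ => Sum.inr ()
  yi := Sum.inl (Sum.inr (Sum.inl ()))
  xi := Sum.inl (Sum.inr (Sum.inr ()))
  cov := by
    rintro ((_ | _ | _) | _)
    · exact Or.inl ⟨Sum.inl (), rfl⟩
    · exact Or.inr (Or.inl rfl)
    · exact Or.inr (Or.inr rfl)
    · exact Or.inl ⟨Sum.inr (), rfl⟩
  xq := by
    rintro (_ | _) h
    · exact absurd h (by simp)
    · exact absurd h (by simp)
  xy h := absurd h (by simp)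

theorem max_xz (z : Circle) : max (1 - 4 * (xz z : ℝ)) (4 * (xz z : ℝ) - 3) = -(z : ℂ).re := by
  have h := Circle.re_le z
  show max (1 - 4 * xr z) (4 * xr z - 3) = _
  unfold xr
  split_ifs
  · rw [max_eq_right (by linarith)]
    ring
  · rw [max_eq_left (by linarith)]
    ring

theorem rr_wk (d : S2) : rr (pI (max (1 - 4 * (xz (za d) : ℝ)) (4 * (xz (za d) : ℝ) - 3))) (yc d) =
    wk (1, d) := by
  rw [max_xz]
  unfold rr wk
  rw [Set.Icc.coe_one, one_mul]
  congr 1
  apply Subtype.ext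
  show |2 * ((1 - d.1 2) / 2) - 1| = |d.1 2|
  rw [show 2 * ((1 - d.1 2) / 2) - 1 = -d.1 2 by ring, abs_neg]

/-- The last end. -/
theorem ends3 : LL (H3.at 1) = cm kap (lp c2 LV_ak (Sum.inr ()) (Pl 1 0)) := by
  ext s
  set d := dr (betu s) with hd
  have hq : (fun b : LB => (Sum.elim (ks fun i => s (Sum.inl i)) fun i => s (Sum.inr i) :
      N3 ⊕ Unit → I) (c2.qi b)) = bets s := by
    funext b
    rcases b with b | b <;> rfl
  show MW (bets s) (wk (1, d)) (ev (if 0 ≤ d.1 2 then 1 else wz (za d))) =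
    MF LV_ak (Sum.inr ()) (fun b : LB => (Sum.elim (ks fun i => s (Sum.inl i))
      fun i => s (Sum.inr i) : N3 ⊕ Unit → I) (c2.qi b))
      (2 * Real.pi * (1 : ℤ) * cl (2 * (xz (za d) : ℝ) - 1 / 2))
      (2 * Real.pi * (0 : ℤ) * cl (2 * (xz (za d) : ℝ) - 1 / 2))
      (pI (max (1 - 4 * (xz (za d) : ℝ)) (4 * (xz (za d) : ℝ) - 3))) (yc d)
  rw [hq, MW_ev]
  unfold MF
  rw [rr_wk]
  have h0 : Circle.exp (2 * Real.pi * (0 : ℤ) * cl (2 * (xz (za d) : ℝ) - 1 / 2) / 4) = 1 := by
    rw [Int.cast_zero, mul_zero, zero_mul, zero_div, Circle.exp_zero]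
  rw [h0]
  by_cases h : 0 ≤ d.1 2
  · have h1 : (yc d : ℝ) ≤ 1 / 2 := by
      show (1 - d.1 2) / 2 ≤ 1 / 2
      linarith
    rw [if_pos h, if_pos h1]
  · have h1 : ¬ (yc d : ℝ) ≤ 1 / 2 := by
      show ¬ (1 - d.1 2) / 2 ≤ 1 / 2
      linarith
    rw [if_neg h, if_neg h1]
    rfl

/-- The loop of four points. -/
def G0 : WS.L (N3 ⊕ Unit) LB := lp c2 LV_ak (Sum.inr ()) (Pl 1 0)

/-- **The loop with the label of rank four.** -/
theorem F0_homotopic : GenLoop.Homotopic (LL (H1.at 0)) (cm kap G0) := by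
  have h1 := H1.hom
  have h2 := H2.hom
  have h3 := H3.hom
  rw [ends12] at h1
  rw [ends23] at h2
  rw [ends3] at h3
  exact h1.trans (h2.trans h3)

end Pool.Agent.Tate.R2
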