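import Pool.Agent.Lib.Tate.R.R2.Mf
import Pool.Agent.Lib.Tate.R.W

/-!
# C42 (MP_071d69_gt), block R2 (helper57): loops of four points

`lp c ha i₀ P`: the loop `s ↦ MF ha i₀ (s ∘ c.qi) (φ x) (θ x) (u x) y`, `x = s c.xi`, `y = s c.yi`, for a
path `P = (φ, θ, u)` of parameters.  `Pl m n`: `φ` runs from `0` to `2 π m`, `θ` from `0` to `2 π n`.
Main result `lp_add`: `lp (Pl 1 1) ~ transAt c.xi (lp (Pl 1 0)) (lp (Pl 0 1))`.
-/

set_option linter.unusedSectionVars false

open Topology unitInterval Filter Set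
open scoped Topology.Homotopy OnePoint ZeroAtInfty

noncomputable section

namespace Pool.Agent.Tate.R2

open R3

/-! ### Paths of parameters -/

/-- Paths of parameters of the universal family. -/
structure Pt where
  /-- the angle of `f` -/
  φ : I → ℝ
  /-- the angle of `g` -/
  θ : I → ℝ
  /-- the whisker -/
  u : I → I
  cφ : Continuous φ
  cθ : Continuous θ
  cu : Continuous u
  good : ∀ x, u x = 0 ∨ (Circle.exp (φ x) = 1 ∧ Circle.exp (θ x) = 1)
  u0 : u 0 = 1
  u1 : u 1 = 1

/-- The coordinates: `N` is the union of the real coordinates `qi b`, of `yi` and of `xi`. -/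
structure Co (A N : Type) where
  /-- real coordinates -/
  qi : A → N
  /-- the coordinate of the radius -/
  yi : N
  /-- the coordinate of the path -/
  xi : N
  cov : ∀ n, (∃ b, n = qi b) ∨ n = yi ∨ n = xi
  xq : ∀ b, qi b ≠ xi
  xy : yi ≠ xi

section lp

variable {A N : Type} [Fintype A] [DecidableEq A] {a : ZMod 4 → A → ZMod 4}

/-- The loop of a path of parameters. -/
def lp (c : Co A N) (ha : LV a) (i₀ : A) (P : Pt) : WS.L N A :=
  ⟨⟨fun s => MF ha i₀ (fun b => s (c.qi b)) (P.φ (s c.xi)) (P.θ (s c.xi)) (P.u (s c.xi))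
      (s c.yi), by
    refine continuous_MF ha i₀ (by fun_prop) (P.cφ.comp (continuous_apply _))
      (P.cθ.comp (continuous_apply _)) (P.cu.comp (continuous_apply _)) (continuous_apply _) ?_
    intro s _
    exact P.good _⟩, by
    rintro s ⟨n, hn⟩
    refine MF_infty ha i₀ _ _ ?_
    rcases c.cov n with ⟨b, rfl⟩ | rfl | rfl
    · exact Or.inl ⟨b, hn⟩
    · exact Or.inr (Or.inr hn)
    · refine Or.inr (Or.inl ?_)
      rcases hn with hn | hn
      · rw [hn, P.u0]
      · rw [hn, P.u1]⟩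

theorem lp_apply (c : Co A N) (ha : LV a) (i₀ : A) (P : Pt) (s : N → I) :
    lp c ha i₀ P s = MF ha i₀ (fun b => s (c.qi b)) (P.φ (s c.xi)) (P.θ (s c.xi))
      (P.u (s c.xi)) (s c.yi) := rfl

/-- Homotopies of paths of parameters. -/
theorem lp_homotopic (c : Co A N) (ha : LV a) (i₀ : A) (f g : WS.L N A) (Φ Θ : I × I → ℝ)
    (U : I × I → I) (hΦ : Continuous Φ) (hΘ : Continuous Θ) (hU : Continuous U)
    (hg : ∀ p, U p = 0 ∨ (Circle.exp (Φ p) = 1 ∧ Circle.exp (Θ p) = 1))
    (h0 : ∀ t, U (t, 0) = 1) (h1 : ∀ t, U (t, 1) = 1)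
    (hf : ∀ s, MF ha i₀ (fun b => s (c.qi b)) (Φ (0, s c.xi)) (Θ (0, s c.xi)) (U (0, s c.xi))
      (s c.yi) = f s)
    (hg' : ∀ s, MF ha i₀ (fun b => s (c.qi b)) (Φ (1, s c.xi)) (Θ (1, s c.xi)) (U (1, s c.xi))
      (s c.yi) = g s) : GenLoop.Homotopic f g := by
  have hx : Continuous fun p : I × (N → I) => (p.1, p.2 c.xi) := by fun_prop
  refine ⟨⟨⟨⟨fun p : I × (N → I) => MF ha i₀ (fun b => p.2 (c.qi b)) (Φ (p.1, p.2 c.xi))
    (Θ (p.1, p.2 c.xi)) (U (p.1, p.2 c.xi)) (p.2 c.yi), ?_⟩, ?_, ?_⟩, ?_⟩⟩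
  · exact continuous_MF ha i₀ (by fun_prop) (hΦ.comp hx) (hΘ.comp hx) (hU.comp hx)
      (by fun_prop) fun p _ => hg _
  · exact hf
  · exact hg'
  · rintro t s hs
    have e1 : MF ha i₀ (fun b => s (c.qi b)) (Φ (t, s c.xi)) (Θ (t, s c.xi)) (U (t, s c.xi))
        (s c.yi) = Wpt A := by
      obtain ⟨n, hn⟩ := hs
      refine MF_infty ha i₀ _ _ ?_
      rcases c.cov n with ⟨b, rfl⟩ | rfl | rfl
      · exact Or.inl ⟨b, hn⟩
      · exact Or.inr (Or.inr hn)
      · refine Or.inr (Or.inl ?_)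
        rcases hn with hn | hn
        · rw [hn, h0]
        · rw [hn, h1]
    have e2 : f s = Wpt A := f.2 s hs
    show MF ha i₀ (fun b => s (c.qi b)) (Φ (t, s c.xi)) (Θ (t, s c.xi)) (U (t, s c.xi))
        (s c.yi) = f s
    rw [e1, e2]

end lp

/-! ### The paths -/

/-- Clamp to the unit interval. -/
def cl (x : ℝ) : ℝ := max 0 (min 1 x)

theorem continuous_cl : Continuous cl := by
  unfold cl
  fun_prop

theorem cl_le {x : ℝ} (h : x ≤ 0) : cl x = 0 := by
  unfold cl
  exact max_eq_left ((min_le_right _ _).trans h)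

theorem cl_ge {x : ℝ} (h : 1 ≤ x) : cl x = 1 := by
  unfold cl
  rw [min_eq_left h]
  exact max_eq_right zero_le_one

/-- The projection to the unit interval. -/
def pI (x : ℝ) : I := Set.projIcc 0 1 zero_le_one x

theorem continuous_pI : Continuous pI := continuous_projIcc (h := zero_le_one)

theorem pI_le {x : ℝ} (h : x ≤ 0) : pI x = 0 := Set.projIcc_of_le_left zero_le_one h

theorem pI_ge {x : ℝ} (h : 1 ≤ x) : pI x = 1 := Set.projIcc_of_right_le zero_le_one h

theorem pI_max (x : ℝ) : pI (max x 0) = pI x := by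
  rcases le_total x 0 with h | h
  · rw [max_eq_right h, pI_le h, pI_le le_rfl]
  · rw [max_eq_left h]

theorem exp_int (m : ℤ) : Circle.exp (2 * Real.pi * m) = 1 := by
  rw [mul_comm, Circle.exp_int_mul_two_pi]

theorem exp_cl (m : ℤ) {x : ℝ} (h : x ≤ 0 ∨ 1 ≤ x) :
    Circle.exp (2 * Real.pi * m * cl x) = 1 := by
  rcases h with h | h
  · rw [cl_le h, mul_zero, Circle.exp_zero]
  · rw [cl_ge h, mul_one, exp_int]

/-- The path with `φ` from `0` to `2 π m` and `θ` from `0` to `2 π n`. -/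
def Pl (m n : ℤ) : Pt where
  φ x := 2 * Real.pi * m * cl (2 * x - 1 / 2)
  θ x := 2 * Real.pi * n * cl (2 * x - 1 / 2)
  u x := pI (max (1 - 4 * x) (4 * x - 3))
  cφ := continuous_const.mul (continuous_cl.comp (by fun_prop))
  cθ := continuous_const.mul (continuous_cl.comp (by fun_prop))
  cu := continuous_pI.comp (by fun_prop)
  good x := by
    by_cases h : max (1 - 4 * (x : ℝ)) (4 * x - 3) ≤ 0
    · exact Or.inl (pI_le h)
    · right
      have h2 : 2 * (x : ℝ) - 1 / 2 ≤ 0 ∨ 1 ≤ 2 * (x : ℝ) - 1 / 2 := by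
        rw [not_le, lt_max_iff] at h
        rcases h with h | h
        · left; linarith
        · right; linarith
      exact ⟨exp_cl m h2, exp_cl n h2⟩
  u0 := pI_ge (by simp)
  u1 := pI_ge (by norm_num)

section add

variable {A N : Type} [Fintype A] [DecidableEq A] [DecidableEq N] {a : ZMod 4 → A → ZMod 4}

/-- The loop with `f` and `g` is the product of the loops with `f` only and with `g` only. -/
theorem lp_add (c : Co A N) (ha : LV a) (i₀ : A) :
    GenLoop.Homotopic (lp c ha i₀ (Pl 1 1))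
      (GenLoop.transAt c.xi (lp c ha i₀ (Pl 1 0)) (lp c ha i₀ (Pl 0 1))) := by
  -- the intermediate path
  let P1 : Pt :=
    { φ := fun x => 2 * Real.pi * (1 : ℤ) * cl (4 * x - 1 / 2)
      θ := fun x => 2 * Real.pi * (1 : ℤ) * cl (4 * x - 5 / 2)
      u := fun x => pI (max (1 - 8 * x) (8 * x - 7))
      cφ := continuous_const.mul (continuous_cl.comp (by fun_prop))
      cθ := continuous_const.mul (continuous_cl.comp (by fun_prop))
      cu := continuous_pI.comp (by fun_prop)
      good := fun x => by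
        by_cases h : max (1 - 8 * (x : ℝ)) (8 * x - 7) ≤ 0
        · exact Or.inl (pI_le h)
        · right
          rw [not_le, lt_max_iff] at h
          constructor
          · refine exp_cl 1 ?_
            rcases h with h | h
            · left; linarith
            · right; linarith
          · refine exp_cl 1 ?_
            rcases h with h | h
            · left; linarith
            · right; linarith
      u0 := pI_ge (by simp)
      u1 := pI_ge (by norm_num) }
  have e1 : GenLoop.Homotopic (lp c ha i₀ P1) (lp c ha i₀ (Pl 1 1)) := by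
    refine lp_homotopic c ha i₀ _ _
      (fun p => 2 * Real.pi * (1 : ℤ) * cl ((4 - 2 * (p.1 : ℝ)) * p.2 - 1 / 2))
      (fun p => 2 * Real.pi * (1 : ℤ) * cl ((4 - 2 * (p.1 : ℝ)) * p.2 - 5 / 2 + 2 * p.1))
      (fun p => pI (max (1 - (8 - 4 * (p.1 : ℝ)) * p.2) (1 - (8 - 4 * (p.1 : ℝ)) * (1 - p.2))))
      (continuous_const.mul (continuous_cl.comp (by fun_prop)))
      (continuous_const.mul (continuous_cl.comp (by fun_prop)))
      (continuous_pI.comp (by fun_prop)) ?_ ?_ ?_ ?_ ?_
    · rintro ⟨t, x⟩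
      have ht0 := t.2.1
      have ht1 := t.2.2
      have hx0 := x.2.1
      have hx1 := x.2.2
      by_cases h : max (1 - (8 - 4 * (t : ℝ)) * x) (1 - (8 - 4 * (t : ℝ)) * (1 - x)) ≤ 0
      · exact Or.inl (pI_le h)
      · right
        rw [not_le, lt_max_iff] at h
        constructor
        · refine exp_cl 1 ?_
          show (4 - 2 * (t : ℝ)) * x - 1 / 2 ≤ 0 ∨ 1 ≤ (4 - 2 * (t : ℝ)) * x - 1 / 2
          rcases h with h | h
          · left; nlinarith
          · right; nlinarith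
        · refine exp_cl 1 ?_
          show (4 - 2 * (t : ℝ)) * x - 5 / 2 + 2 * t ≤ 0 ∨
            1 ≤ (4 - 2 * (t : ℝ)) * x - 5 / 2 + 2 * t
          rcases h with h | h
          · left; nlinarith
          · right; nlinarith
    · intro t
      refine pI_ge (le_max_of_le_left ?_)
      simp
    · intro t
      refine pI_ge (le_max_of_le_right ?_)
      simp
    · intro s
      rw [lp_apply]
      show MF ha i₀ _ (2 * Real.pi * (1 : ℤ) * cl ((4 - 2 * ((0 : I) : ℝ)) * (s c.xi) - 1 / 2))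
        (2 * Real.pi * (1 : ℤ) * cl ((4 - 2 * ((0 : I) : ℝ)) * (s c.xi) - 5 / 2 + 2 * (0 : I)))
        (pI (max (1 - (8 - 4 * ((0 : I) : ℝ)) * (s c.xi))
          (1 - (8 - 4 * ((0 : I) : ℝ)) * (1 - (s c.xi))))) _ =
        MF ha i₀ _ (2 * Real.pi * (1 : ℤ) * cl (4 * (s c.xi) - 1 / 2))
          (2 * Real.pi * (1 : ℤ) * cl (4 * (s c.xi) - 5 / 2))
          (pI (max (1 - 8 * (s c.xi)) (8 * (s c.xi) - 7))) _
      rw [Set.Icc.coe_zero]
      congr 2
      · congr 1
        ring
      · congr 1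
        ring
      · congr 1
        · ring
        · ring
    · intro s
      rw [lp_apply]
      show MF ha i₀ _ (2 * Real.pi * (1 : ℤ) * cl ((4 - 2 * ((1 : I) : ℝ)) * (s c.xi) - 1 / 2))
        (2 * Real.pi * (1 : ℤ) * cl ((4 - 2 * ((1 : I) : ℝ)) * (s c.xi) - 5 / 2 + 2 * (1 : I)))
        (pI (max (1 - (8 - 4 * ((1 : I) : ℝ)) * (s c.xi))
          (1 - (8 - 4 * ((1 : I) : ℝ)) * (1 - (s c.xi))))) _ =
        MF ha i₀ _ (2 * Real.pi * (1 : ℤ) * cl (2 * (s c.xi) - 1 / 2))
          (2 * Real.pi * (1 : ℤ) * cl (2 * (s c.xi) - 1 / 2))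
          (pI (max (1 - 4 * (s c.xi)) (4 * (s c.xi) - 3))) _
      rw [Set.Icc.coe_one]
      congr 2
      · congr 1
        ring
      · congr 1
        ring
      · congr 1
        · ring
        · ring
  refine e1.symm.trans ?_
  refine (lp_homotopic c ha i₀ (GenLoop.transAt c.xi (lp c ha i₀ (Pl 1 0)) (lp c ha i₀ (Pl 0 1)))
    (lp c ha i₀ P1)
    (fun p => 2 * Real.pi * (1 : ℤ) * cl (4 * p.2 - 1 / 2))
    (fun p => 2 * Real.pi * (1 : ℤ) * cl (4 * p.2 - 5 / 2))
    (fun p => pI (max (max (1 - 8 * (p.2 : ℝ)) (8 * p.2 - 7))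
      ((1 - (p.1 : ℝ)) * (1 - 8 * |(p.2 : ℝ) - 1 / 2|))))
    (continuous_const.mul (continuous_cl.comp (by fun_prop)))
    (continuous_const.mul (continuous_cl.comp (by fun_prop)))
    (continuous_pI.comp (by fun_prop)) ?_ ?_ ?_ ?_ ?_).symm
  · rintro ⟨t, x⟩
    have ht0 := t.2.1
    have ht1 := t.2.2
    by_cases h : max (max (1 - 8 * (x : ℝ)) (8 * x - 7))
      ((1 - (t : ℝ)) * (1 - 8 * |(x : ℝ) - 1 / 2|)) ≤ 0
    · exact Or.inl (pI_le h)
    · right
      rw [not_le, lt_max_iff, lt_max_iff] at h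
      have h2 : (0 < 1 - 8 * (x : ℝ) ∨ 0 < 8 * (x : ℝ) - 7) ∨
          (3 / 8 < (x : ℝ) ∧ (x : ℝ) < 5 / 8) := by
        rcases h with h | h
        · exact Or.inl h
        · right
          have h3 : 0 < 1 - 8 * |(x : ℝ) - 1 / 2| := by
            by_contra hn
            rw [not_lt] at hn
            nlinarith
          have h4 : |(x : ℝ) - 1 / 2| < 1 / 8 := by linarith
          rw [abs_lt] at h4
          constructor <;> linarith
      constructor
      · refine exp_cl 1 ?_
        show 4 * (x : ℝ) - 1 / 2 ≤ 0 ∨ 1 ≤ 4 * (x : ℝ) - 1 / 2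
        rcases h2 with (h | h) | h
        · left; linarith
        · right; linarith
        · right; linarith
      · refine exp_cl 1 ?_
        show 4 * (x : ℝ) - 5 / 2 ≤ 0 ∨ 1 ≤ 4 * (x : ℝ) - 5 / 2
        rcases h2 with (h | h) | h
        · left; linarith
        · right; linarith
        · left; linarith
  · intro t
    refine pI_ge (le_max_of_le_left (le_max_of_le_left ?_))
    simp
  · intro t
    refine pI_ge (le_max_of_le_left (le_max_of_le_right ?_))
    norm_num
  · intro s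
    set x : I := s c.xi with hx
    have hs : ∀ (r : I), (fun b => Function.update s c.xi r (c.qi b)) = fun b => s (c.qi b) := by
      intro r
      funext b
      exact Function.update_of_ne (c.xq b) _ _
    have hy : ∀ (r : I), Function.update s c.xi r c.yi = s c.yi := fun r =>
      Function.update_of_ne c.xy _ _
    show MF ha i₀ _ (2 * Real.pi * (1 : ℤ) * cl (4 * x - 1 / 2))
      (2 * Real.pi * (1 : ℤ) * cl (4 * x - 5 / 2))
      (pI (max (max (1 - 8 * (x : ℝ)) (8 * x - 7))
        ((1 - ((0 : I) : ℝ)) * (1 - 8 * |(x : ℝ) - 1 / 2|)))) _ =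
      if (s c.xi : ℝ) ≤ 1 / 2
      then lp c ha i₀ (Pl 1 0) (Function.update s c.xi
        (Set.projIcc 0 1 zero_le_one (2 * (s c.xi : ℝ))))
      else lp c ha i₀ (Pl 0 1) (Function.update s c.xi
        (Set.projIcc 0 1 zero_le_one (2 * (s c.xi : ℝ) - 1)))
    rw [← hx, Set.Icc.coe_zero, sub_zero, one_mul]
    have hx0 := x.2.1
    have hx1 := x.2.2
    split_ifs with h
    · rw [lp_apply, hs, hy, Function.update_self]
      have hp : ((Set.projIcc 0 1 zero_le_one (2 * (x : ℝ)) : I) : ℝ) = 2 * x := by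
        rw [Set.projIcc_of_mem zero_le_one ⟨by linarith, by linarith⟩]
      show _ = MF ha i₀ _ (2 * Real.pi * (1 : ℤ) *
          cl (2 * ((Set.projIcc 0 1 zero_le_one (2 * (x : ℝ)) : I) : ℝ) - 1 / 2))
        (2 * Real.pi * (0 : ℤ) *
          cl (2 * ((Set.projIcc 0 1 zero_le_one (2 * (x : ℝ)) : I) : ℝ) - 1 / 2))
        (pI (max (1 - 4 * ((Set.projIcc 0 1 zero_le_one (2 * (x : ℝ)) : I) : ℝ))
          (4 * ((Set.projIcc 0 1 zero_le_one (2 * (x : ℝ)) : I) : ℝ) - 3))) _
      rw [hp]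
      have e2 : cl (4 * (x : ℝ) - 5 / 2) = 0 := cl_le (by linarith)
      have e3 : max (max (1 - 8 * (x : ℝ)) (8 * x - 7)) (1 - 8 * |(x : ℝ) - 1 / 2|) =
          max (1 - 4 * (2 * (x : ℝ))) (4 * (2 * (x : ℝ)) - 3) := by
        rw [abs_of_nonpos (by linarith)]
        apply le_antisymm
        · refine max_le (max_le ?_ ?_) ?_
          · exact le_max_of_le_left (by linarith)
          · exact le_max_of_le_right (by linarith)
          · exact le_max_of_le_right (by linarith)
        · refine max_le ?_ ?_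
          · exact le_max_of_le_left (le_max_of_le_left (by linarith))
          · exact le_max_of_le_right (by linarith)
      rw [e2, e3]
      congr 1
      · congr 2
        ring
      · simp
    · rw [lp_apply, hs, hy, Function.update_self]
      have hp : ((Set.projIcc 0 1 zero_le_one (2 * (x : ℝ) - 1) : I) : ℝ) = 2 * x - 1 := by
        rw [Set.projIcc_of_mem zero_le_one ⟨by linarith, by linarith⟩]
      show _ = MF ha i₀ _ (2 * Real.pi * (0 : ℤ) *
          cl (2 * ((Set.projIcc 0 1 zero_le_one (2 * (x : ℝ) - 1) : I) : ℝ) - 1 / 2))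
        (2 * Real.pi * (1 : ℤ) *
          cl (2 * ((Set.projIcc 0 1 zero_le_one (2 * (x : ℝ) - 1) : I) : ℝ) - 1 / 2))
        (pI (max (1 - 4 * ((Set.projIcc 0 1 zero_le_one (2 * (x : ℝ) - 1) : I) : ℝ))
          (4 * ((Set.projIcc 0 1 zero_le_one (2 * (x : ℝ) - 1) : I) : ℝ) - 3))) _
      rw [hp]
      have e2 : cl (4 * (x : ℝ) - 1 / 2) = 1 := cl_ge (by linarith)
      have e3 : max (max (1 - 8 * (x : ℝ)) (8 * x - 7)) (1 - 8 * |(x : ℝ) - 1 / 2|) =
          max (1 - 4 * (2 * (x : ℝ) - 1)) (4 * (2 * (x : ℝ) - 1) - 3) := by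
        rw [abs_of_nonneg (by linarith)]
        apply le_antisymm
        · refine max_le (max_le ?_ ?_) ?_
          · exact le_max_of_le_left (by linarith)
          · exact le_max_of_le_right (by linarith)
          · exact le_max_of_le_left (by linarith)
        · refine max_le ?_ ?_
          · exact le_max_of_le_right (by linarith)
          · exact le_max_of_le_left (le_max_of_le_right (by linarith))
      rw [e2, e3]
      have e4 : (2 * Real.pi * ((1 : ℤ) : ℝ) * cl (2 * (2 * (x : ℝ) - 1) - 1 / 2)) =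
          2 * Real.pi * ((1 : ℤ) : ℝ) * cl (4 * (x : ℝ) - 5 / 2) := by
        congr 2
        ring
      rw [e4]
      refine MF_periodic ha i₀ _ _ _ ?_ rfl
      rw [mul_one, exp_int]
      simp
  · intro s
    rw [lp_apply]
    show MF ha i₀ _ (2 * Real.pi * (1 : ℤ) * cl (4 * (s c.xi) - 1 / 2))
      (2 * Real.pi * (1 : ℤ) * cl (4 * (s c.xi) - 5 / 2))
      (pI (max (max (1 - 8 * ((s c.xi : I) : ℝ)) (8 * (s c.xi) - 7))
        ((1 - ((1 : I) : ℝ)) * (1 - 8 * |((s c.xi : I) : ℝ) - 1 / 2|)))) _ =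
      MF ha i₀ _ (2 * Real.pi * (1 : ℤ) * cl (4 * (s c.xi) - 1 / 2))
        (2 * Real.pi * (1 : ℤ) * cl (4 * (s c.xi) - 5 / 2))
        (pI (max (1 - 8 * (s c.xi)) (8 * (s c.xi) - 7))) _
    rw [Set.Icc.coe_one, sub_self, zero_mul, pI_max]

end add

end Pool.Agent.Tate.R2
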