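import Pool.Agent.Lib.Tate.R.R3.Cf

/-!
# C42 (MP_071d69_gt), block R2 (helper57): the universal family of four points

`MB a i₀ q r f ζ`: the four points with real coordinates `rho (q b)` and `ℂ`-coordinate
`ζ * I ^ j * (r / (1 - r))` in the place `i₀`, `j ∈ ZMod 4`, with the label the line spanned by
`f e_0 + ∑_{k = 1, 2, 3} (ζ I^j)^k e_k`, `e_k` the basis vector of `a k`.
`MF a i₀ q φ θ u y`: `r = max |2 y - 1| u`; for `y ≤ 1/2` the family with `f = ζ = 1`, for `y ≥ 1/2` with
`f = exp (i φ)`, `ζ = exp (i θ / 4)`.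
-/

set_option linter.unusedSectionVars false

open Topology unitInterval Filter Set
open scoped Topology.Homotopy OnePoint ZeroAtInfty

noncomputable section

namespace Pool.Agent.Tate.R2

open R3

/-! ### Fourth roots of unity -/

/-- `I ^ j`. -/
def u4 (j : ZMod 4) : ℂ := Complex.I ^ j.val

theorem u4_zero : u4 0 = 1 := by
  show Complex.I ^ (0 : ZMod 4).val = 1
  simp

theorem u4_add_one (j : ZMod 4) : u4 (j + 1) = Complex.I * u4 j := by
  have h2 := Complex.I_sq
  have h : ∀ j : ZMod 4, (j + 1).val = (j.val + 1) % 4 := by decide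
  unfold u4
  rw [h, ← pow_succ', ← Nat.mod_add_div (j.val + 1) 4]
  rw [pow_add, pow_mul, Complex.I_pow_four, one_pow, mul_one, Nat.mod_add_div]

theorem norm_u4 (j : ZMod 4) : ‖u4 j‖ = 1 := by
  unfold u4
  rw [norm_pow, Complex.norm_I, one_pow]

theorem u4_pow_four (j : ZMod 4) : u4 j ^ 4 = 1 := by
  unfold u4
  rw [← pow_mul, mul_comm, pow_mul, Complex.I_pow_four, one_pow]

theorem u4_conj (j : ZMod 4) : (starRingEnd ℂ) (u4 j) * u4 j = 1 := by
  rw [mul_comm, Complex.mul_conj, Complex.normSq_eq_norm_sq, norm_u4]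
  simp

theorem u4_injective : Function.Injective u4 := by
  intro j k h
  unfold u4 at h
  have key : ∀ m : ℕ, m < 4 → ∀ n : ℕ, n < 4 → Complex.I ^ m = Complex.I ^ n → m = n := by
    have h2 : Complex.I ^ 2 = -1 := Complex.I_sq
    have h3 : Complex.I ^ 3 = -Complex.I := by
      rw [pow_succ, h2]
      ring
    intro m hm n hn hmn
    interval_cases m <;> interval_cases n <;> first
      | rfl
      | (exfalso
         simp only [pow_zero, pow_one, h2, h3] at hmn
         rw [Complex.ext_iff] at hmn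
         norm_num at hmn)
  exact ZMod.val_injective 4 (key _ (ZMod.val_lt j) _ (ZMod.val_lt k) h)

/-- Orthogonality. -/
theorem u4_orth (j l : ZMod 4) :
    ∑ k : ZMod 4, ((starRingEnd ℂ) (u4 j) * u4 l) ^ k.val = if j = l then 4 else 0 := by
  set t := (starRingEnd ℂ) (u4 j) * u4 l with ht
  have hs : ∑ k : ZMod 4, t ^ k.val = 1 + t + t ^ 2 + t ^ 3 := by
    show ∑ k : Fin 4, t ^ (k : ℕ) = _
    rw [Fin.sum_univ_four]
    simp
  rw [hs]
  split_ifs with h
  · rw [ht, h, u4_conj]
    norm_num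
  · have h4 : t ^ 4 = 1 := by
      rw [ht, mul_pow, u4_pow_four, ← map_pow, u4_pow_four, map_one, mul_one]
    have h1 : t ≠ 1 := by
      intro h1
      apply h
      apply u4_injective
      have : u4 j * t = u4 l := by
        rw [ht, ← mul_assoc, mul_comm (u4 j), u4_conj, one_mul]
      rw [← this, h1, mul_one]
    have h2 : (t - 1) * (1 + t + t ^ 2 + t ^ 3) = 0 := by
      linear_combination h4
    rcases mul_eq_zero.1 h2 with h3 | h3
    · exact absurd (sub_eq_zero.1 h3) h1
    · exact h3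

/-! ### Labels -/

section lab

variable {A : Type} [Fintype A] [DecidableEq A]

/-- The basis vectors `e_k`: the character of `e_k` is `c I ^ k`, `c` the character of `e_0`. -/
structure LV (a : ZMod 4 → A → ZMod 4) : Prop where
  inj : Function.Injective a
  ch : ∀ k, chi (a k) = chi (a 0) * Complex.I ^ k.val

/-- The coefficients for `j = 0`. -/
def w0 (f ζ : Circle) (k : ZMod 4) : ℂ := if k = 0 then (f : ℂ) else (ζ : ℂ) ^ k.val

theorem w0_conj (f ζ : Circle) (k : ZMod 4) : (starRingEnd ℂ) (w0 f ζ k) * w0 f ζ k = 1 := by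
  rw [mul_comm, Complex.mul_conj, Complex.normSq_eq_norm_sq]
  unfold w0
  split_ifs
  · rw [Circle.norm_coe]
    simp
  · rw [norm_pow, Circle.norm_coe]
    simp

theorem w0_conj' (f ζ : Circle) (k : ZMod 4) : w0 f ζ k * (starRingEnd ℂ) (w0 f ζ k) = 1 := by
  rw [mul_comm]
  exact w0_conj f ζ k

/-- The vector with the coefficients `w k` for `e_k`. -/
def vw (a : ZMod 4 → A → ZMod 4) (w : ZMod 4 → ℂ) (x : A → ZMod 4) : ℂ :=
  ∑ k, if x = a k then w k else 0

theorem vw_self {a : ZMod 4 → A → ZMod 4} (ha : Function.Injective a) (w : ZMod 4 → ℂ)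
    (k : ZMod 4) : vw a w (a k) = w k := by
  unfold vw
  rw [Finset.sum_eq_single k]
  · rw [if_pos rfl]
  · intro l _ hl
    rw [if_neg fun h => hl (ha h).symm]
  · intro h
    exact absurd (Finset.mem_univ k) h

theorem vw_of_not {a : ZMod 4 → A → ZMod 4} (w : ZMod 4 → ℂ) {x : A → ZMod 4}
    (hx : ∀ k, x ≠ a k) : vw a w x = 0 := by
  unfold vw
  exact Finset.sum_eq_zero fun k _ => if_neg (hx k)

/-- Inner products. -/
theorem vw_inner {a : ZMod 4 → A → ZMod 4} (ha : Function.Injective a) (w w' : ZMod 4 → ℂ) :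
    ∑ x, (starRingEnd ℂ) (vw a w x) * vw a w' x = ∑ k, (starRingEnd ℂ) (w k) * w' k := by
  classical
  rw [← Finset.sum_subset (Finset.subset_univ (Finset.univ.image a))]
  · rw [Finset.sum_image fun _ _ _ _ h => ha h]
    refine Finset.sum_congr rfl fun k _ => ?_
    rw [vw_self ha, vw_self ha]
  · intro x _ hx
    rw [vw_of_not w' (fun k h => hx (by
      rw [Finset.mem_image]
      exact ⟨k, Finset.mem_univ k, h.symm⟩)), mul_zero]

/-- The label: projection on the line of the vector. -/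
def lb (a : ZMod 4 → A → ZMod 4) (f ζ : Circle) (j : ZMod 4) : Mt A (ZMod 4) := fun x y =>
  vw a (fun k => w0 f ζ k * u4 j ^ k.val) x *
    (starRingEnd ℂ) (vw a (fun k => w0 f ζ k * u4 j ^ k.val) y) / 4

theorem lb_inner {a : ZMod 4 → A → ZMod 4} (ha : Function.Injective a) (f ζ : Circle)
    (j l : ZMod 4) :
    ∑ x, (starRingEnd ℂ) (vw a (fun k => w0 f ζ k * u4 j ^ k.val) x) *
      vw a (fun k => w0 f ζ k * u4 l ^ k.val) x = if j = l then 4 else 0 := by
  rw [vw_inner ha, ← u4_orth j l]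
  refine Finset.sum_congr rfl fun k _ => ?_
  rw [map_mul, map_pow, mul_pow]
  have h := w0_conj f ζ k
  linear_combination ((starRingEnd ℂ) (u4 j) ^ k.val * u4 l ^ k.val) * h

theorem lb_of {a : ZMod 4 → A → ZMod 4} (ha : Function.Injective a) (f ζ : Circle) :
    OF (lb a f ζ) := by
  have key : ∀ j l x z, (lb a f ζ j * lb a f ζ l) x z =
      vw a (fun k => w0 f ζ k * u4 j ^ k.val) x * (if j = l then 4 else 0) *
        (starRingEnd ℂ) (vw a (fun k => w0 f ζ k * u4 l ^ k.val) z) / 16 := by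
    intro j l x z
    rw [← lb_inner ha f ζ j l, Matrix.mul_apply, Finset.mul_sum, Finset.sum_mul,
      Finset.sum_div]
    refine Finset.sum_congr rfl fun y _ => ?_
    unfold lb
    ring
  refine ⟨?_, ?_, ?_⟩
  · intro j
    ext x y
    rw [Matrix.conjTranspose_apply]
    unfold lb
    show (starRingEnd ℂ) _ = _
    rw [map_div₀, map_mul, Complex.conj_conj, mul_comm]
    congr 1
    exact (map_ofNat (starRingEnd ℂ) 4)
  · intro j
    ext x z
    rw [key, if_pos rfl]
    unfold lb
    ring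
  · intro j l hjl
    ext x z
    rw [key, if_neg hjl]
    simp

/-- The sum of the labels does not depend on `f`, `ζ`. -/
theorem lb_sum {a : ZMod 4 → A → ZMod 4} (ha : Function.Injective a) (f ζ : Circle)
    (x y : A → ZMod 4) : ∑ j, lb a f ζ j x y = if x = y ∧ ∃ k, x = a k then 1 else 0 := by
  classical
  by_cases hx : ∃ k, x = a k
  · obtain ⟨k, rfl⟩ := hx
    by_cases hy : ∃ l, y = a l
    · obtain ⟨l, rfl⟩ := hy
      have h1 : ∀ j, lb a f ζ j (a k) (a l) = w0 f ζ k * (starRingEnd ℂ) (w0 f ζ l) *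
          ((starRingEnd ℂ) (u4 l) * u4 k) ^ j.val / 4 := by
        intro j
        unfold lb
        rw [vw_self ha, vw_self ha, map_mul]
        have h2 : u4 j ^ k.val = u4 k ^ j.val := by
          unfold u4
          rw [← pow_mul, ← pow_mul, mul_comm]
        have h3 : u4 j ^ l.val = u4 l ^ j.val := by
          unfold u4
          rw [← pow_mul, ← pow_mul, mul_comm]
        rw [h2, h3, map_pow, mul_pow]
        ring
      rw [Finset.sum_congr rfl fun j _ => h1 j, ← Finset.sum_div, ← Finset.mul_sum, u4_orth]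
      by_cases hkl : k = l
      · subst hkl
        rw [if_pos rfl, if_pos ⟨rfl, k, rfl⟩, w0_conj']
        norm_num
      · rw [if_neg (Ne.symm hkl), if_neg fun h => hkl (ha h.1)]
        simp
    · push Not at hy
      rw [if_neg fun h => hy k h.1.symm]
      refine Finset.sum_eq_zero fun j _ => ?_
      unfold lb
      rw [vw_of_not _ hy]
      simp
  · push Not at hx
    rw [if_neg fun h => by
      obtain ⟨k, hk⟩ := h.2
      exact hx k hk]
    refine Finset.sum_eq_zero fun j _ => ?_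
    unfold lb
    rw [vw_of_not _ hx]
    simp

theorem lb_succ {a : ZMod 4 → A → ZMod 4} (ha : LV a) (f ζ : Circle) (j : ZMod 4)
    (x y : A → ZMod 4) :
    lb a f ζ (j + 1) x y = chi x * (starRingEnd ℂ) (chi y) * lb a f ζ j x y := by
  have hn := norm_chi (a 0)
  have key : ∀ x, vw a (fun k => w0 f ζ k * u4 (j + 1) ^ k.val) x =
      (starRingEnd ℂ) (chi (a 0)) * (chi x * vw a (fun k => w0 f ζ k * u4 j ^ k.val) x) := by
    intro x
    by_cases hx : ∃ k, x = a k
    · obtain ⟨k, rfl⟩ := hx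
      rw [vw_self ha.inj, vw_self ha.inj, ha.ch k, u4_add_one, mul_pow]
      linear_combination (-(Complex.I ^ k.val * w0 f ζ k * u4 j ^ k.val)) * hn
    · push Not at hx
      rw [vw_of_not _ hx, vw_of_not _ hx, mul_zero, mul_zero]
  unfold lb
  rw [key, key, map_mul, map_mul, Complex.conj_conj]
  linear_combination (chi x * vw a (fun k => w0 f ζ k * u4 j ^ k.val) x *
    (starRingEnd ℂ) (chi y) *
    (starRingEnd ℂ) (vw a (fun k => w0 f ζ k * u4 j ^ k.val) y) / 4) * hn

theorem lb_shift (a : ZMod 4 → A → ZMod 4) (f ζ ξ : Circle) (hξ : (ξ : ℂ) = Complex.I)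
    (j : ZMod 4) : lb a f (ξ * ζ) j = lb a f ζ (j + 1) := by
  have key : (fun k => w0 f (ξ * ζ) k * u4 j ^ k.val) =
      fun k => w0 f ζ k * u4 (j + 1) ^ k.val := by
    funext k
    unfold w0
    rw [u4_add_one]
    by_cases hk : k = 0
    · rw [if_pos hk, if_pos hk, hk]
      simp
    · rw [if_neg hk, if_neg hk, Circle.coe_mul, hξ, mul_pow, mul_pow]
      ring
  unfold lb
  rw [key]

theorem continuous_lb {Z : Type*} [TopologicalSpace Z] (a : ZMod 4 → A → ZMod 4)
    {f ζ : Z → Circle} (hf : Continuous f) (hζ : Continuous ζ) (j : ZMod 4) :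
    Continuous fun z => lb a (f z) (ζ z) j := by
  have hw : ∀ k, Continuous fun z => w0 (f z) (ζ z) k := by
    intro k
    unfold w0
    split_ifs
    · exact continuous_subtype_val.comp hf
    · exact (continuous_subtype_val.comp hζ).pow _
  have hv : ∀ x, Continuous fun z => vw a (fun k => w0 (f z) (ζ z) k * u4 j ^ k.val) x := by
    intro x
    unfold vw
    refine continuous_finsetSum _ fun k _ => ?_
    split_ifs
    · exact (hw k).mul continuous_const
    · exact continuous_const
  refine continuous_pi fun x => continuous_pi fun y => ?_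
  exact ((hv x).mul (Complex.continuous_conj.comp (hv y))).div_const _

end lab

/-! ### Points -/

section pts

variable {A : Type} [Fintype A] [DecidableEq A] {Z : Type} [TopologicalSpace Z]

/-- The point with real coordinates `rho (q b)` and complex coordinate `ζ r / (1 - r)` at `i₀`. -/
def pzv (i₀ : A) (q : A → I) (r : I) (ζ : ℂ) : A → VV := fun b =>
  (rho (q b), if b = i₀ then ζ * (((r : ℝ) / (1 - r) : ℝ) : ℂ) else 0)

open Classical in
/-- The same, `∞` if `q` is in the boundary or `r = 1`. -/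
def pz (i₀ : A) (q : A → I) (r : I) (ζ : ℂ) : OnePoint (A → VV) :=
  if q ∈ Cube.boundary A ∨ r = 1 then ∞ else (pzv i₀ q r ζ : A → VV)

theorem pz_infty {i₀ : A} {q : A → I} {r : I} {ζ : ℂ} (h : q ∈ Cube.boundary A ∨ r = 1) :
    pz i₀ q r ζ = ∞ := if_pos h

theorem pz_of_not {i₀ : A} {q : A → I} {r : I} {ζ : ℂ} (h : ¬ (q ∈ Cube.boundary A ∨ r = 1)) :
    pz i₀ q r ζ = ((pzv i₀ q r ζ : A → VV) : OnePoint (A → VV)) := if_neg h

theorem pz_zero (i₀ : A) (q : A → I) (ζ ζ' : ℂ) : pz i₀ q 0 ζ = pz i₀ q 0 ζ' := by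
  by_cases h : q ∈ Cube.boundary A ∨ (0 : I) = 1
  · rw [pz_infty h, pz_infty h]
  · rw [pz_of_not h, pz_of_not h]
    congr 1
    funext b
    unfold pzv
    simp

theorem rotE_pz (i₀ : A) (q : A → I) (r : I) (ζ : ℂ) :
    rotE (pz i₀ q r ζ) = pz i₀ q r (Complex.I * ζ) := by
  by_cases h : q ∈ Cube.boundary A ∨ r = 1
  · rw [pz_infty h, pz_infty h]
    rfl
  · rw [pz_of_not h, pz_of_not h]
    show ((rot _ : A → VV) : OnePoint (A → VV)) = _
    congr 1
    funext b
    unfold rot pzv
    split_ifs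
    · simp only [mul_assoc]
    · simp

theorem continuous_pz (i₀ : A) {q : Z → A → I} {r : Z → I} {ζ : Z → ℂ} (hq : Continuous q)
    (hr : Continuous r) (hζ : Continuous ζ) (h1 : ∀ z, ‖ζ z‖ = 1) :
    Continuous fun z => pz i₀ (q z) (r z) (ζ z) := by
  obtain ⟨hr1, hr2⟩ := Wi.pRh
  rw [continuous_iff_continuousAt]
  intro z
  by_cases hs : q z ∈ Cube.boundary A ∨ r z = 1
  · show Tendsto _ _ (𝓝 (pz i₀ (q z) (r z) (ζ z)))
    rw [pz_infty hs, OnePoint.hasBasis_nhds_infty.tendsto_right_iff]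
    rintro K ⟨-, hK⟩
    obtain ⟨M, hM⟩ := hK.isBounded.exists_norm_le
    rcases hs with ⟨b, hb⟩ | hb
    · have h3 := ((continuous_apply b).comp hq).continuousAt.eventually (hr2 (q z b) hb (M + 1))
      filter_upwards [h3] with z' hz'
      by_cases hb' : q z' ∈ Cube.boundary A ∨ r z' = 1
      · rw [pz_infty hb']
        exact Or.inr rfl
      · rw [pz_of_not hb']
        refine Or.inl ⟨_, fun hm => ?_, rfl⟩
        rw [not_or] at hb'
        have h4 := hz' (fun h' => hb'.1 ⟨b, Or.inl h'⟩) (fun h' => hb'.1 ⟨b, Or.inr h'⟩)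
        have h5 := hM _ hm
        have h6 := norm_le_pi_norm (pzv i₀ (q z') (r z') (ζ z')) b
        have h7 : |rho (q z' b)| ≤ ‖pzv i₀ (q z') (r z') (ζ z') b‖ := by
          rw [Prod.norm_def]
          exact le_max_left _ _
        have h8 : M + 1 ≤ |rho (q z' b)| := h4
        linarith
    · -- the radius tends to infinity
      have hpos : (0 : ℝ) < |M| + 2 := by positivity
      have h3 : ∀ᶠ z' in 𝓝 z, (|M| + 1) / (|M| + 2) < (r z' : ℝ) := by
        have hc : ContinuousAt (fun z' => (r z' : ℝ)) z :=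
          (continuous_subtype_val.comp hr).continuousAt
        refine hc.eventually_const_lt (?_ : _ < (r z : ℝ))
        rw [hb, div_lt_iff₀ hpos]
        show |M| + 1 < 1 * (|M| + 2)
        linarith
      filter_upwards [h3] with z' hz'
      by_cases hb' : q z' ∈ Cube.boundary A ∨ r z' = 1
      · rw [pz_infty hb']
        exact Or.inr rfl
      · rw [pz_of_not hb']
        refine Or.inl ⟨_, fun hm => ?_, rfl⟩
        rw [not_or] at hb'
        have h5 := hM _ hm
        have h6 := norm_le_pi_norm (pzv i₀ (q z') (r z') (ζ z')) i₀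
        have hr1' : (r z' : ℝ) < 1 := lt_of_le_of_ne (r z').2.2 fun h' => hb'.2 (Subtype.ext h')
        have h7 : (r z' : ℝ) / (1 - r z') ≤ ‖pzv i₀ (q z') (r z') (ζ z') i₀‖ := by
          rw [Prod.norm_def]
          refine le_trans ?_ (le_max_right _ _)
          show _ ≤ ‖(if i₀ = i₀ then ζ z' * _ else 0 : ℂ)‖
          rw [if_pos rfl, norm_mul, h1, one_mul, Complex.norm_real, Real.norm_eq_abs]
          exact le_abs_self _
        have h8 : |M| + 1 ≤ (r z' : ℝ) / (1 - r z') := by
          rw [le_div_iff₀ (by linarith)]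
          rw [div_lt_iff₀ hpos] at hz'
          nlinarith
        have h9 := le_abs_self M
        linarith
  · have hcl : IsClosed {z' | q z' ∈ Cube.boundary A ∨ r z' = 1} :=
      (isClosed_boundary.preimage hq).union (isClosed_singleton.preimage hr)
    have hev : ∀ᶠ z' in 𝓝 z, ¬ (q z' ∈ Cube.boundary A ∨ r z' = 1) :=
      hcl.isOpen_compl.mem_nhds hs
    refine ContinuousAt.congr (f := fun z' =>
      ((pzv i₀ (q z') (r z') (ζ z') : A → VV) : OnePoint (A → VV))) ?_ ?_
    · refine ContinuousAt.comp (g := ((↑) : (A → VV) → OnePoint (A → VV)))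
        (f := fun z' => (pzv i₀ (q z') (r z') (ζ z') : A → VV))
        OnePoint.continuous_coe.continuousAt ?_
      refine continuousAt_pi.2 fun b => ?_
      rw [not_or] at hs
      refine ContinuousAt.prodMk ?_ ?_
      · have hsa : q z b ≠ 0 ∧ q z b ≠ 1 :=
          ⟨fun h => hs.1 ⟨b, Or.inl h⟩, fun h => hs.1 ⟨b, Or.inr h⟩⟩
        have hr' : ContinuousAt rho (q z b) :=
          hr1.continuousAt ((isOpen_ne.inter isOpen_ne).mem_nhds hsa)
        exact ContinuousAt.comp (g := rho) (f := fun z' => q z' b) hr'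
          ((continuous_apply b).comp hq).continuousAt
      · by_cases hb : b = i₀
        · simp only [if_pos hb]
          refine hζ.continuousAt.mul (Complex.continuous_ofReal.continuousAt.comp ?_)
          have hc : ContinuousAt (fun z' => (r z' : ℝ)) z :=
            (continuous_subtype_val.comp hr).continuousAt
          refine hc.div (continuousAt_const.sub hc) ?_
          intro h0
          exact hs.2 (Subtype.ext (by
            show (r z : ℝ) = 1
            linarith))
        · simp only [if_neg hb]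
          exact continuousAt_const
    · filter_upwards [hev] with z' hz'
      exact (pz_of_not hz').symm

end pts

/-! ### The family -/

section fam

variable {A : Type} [Fintype A] [DecidableEq A] {Z : Type} [TopologicalSpace Z]

theorem lb_IV {a : ZMod 4 → A → ZMod 4} (ha : LV a) (i₀ : A) (q : A → I) (r : I)
    (f ζ : Circle) :
    IV (fun j => pz i₀ q r ((ζ : ℂ) * u4 j)) (lb a f ζ) (Equiv.addRight (1 : ZMod 4)) where
  pt j := by
    show pz i₀ q r ((ζ : ℂ) * u4 (j + 1)) = _
    rw [rotE_pz, u4_add_one]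
    congr 1
    ring
  lb j x y := lb_succ ha f ζ j x y

/-- The configuration of four points. -/
def MB {a : ZMod 4 → A → ZMod 4} (ha : LV a) (i₀ : A) (q : A → I) (r : I) (f ζ : Circle) : WX A :=
  cfW (fun j => pz i₀ q r ((ζ : ℂ) * u4 j)) (lb a f ζ) (lb_of ha.inj f ζ)
    (Equiv.addRight (1 : ZMod 4)) (lb_IV ha i₀ q r f ζ)

theorem MB_P {a : ZMod 4 → A → ZMod 4} (ha : LV a) (i₀ : A) (q : A → I) (r : I) (f ζ : Circle)
    (v : A → VV) : (MB ha i₀ q r f ζ).1.P v = ∑ j, open Classical in
      if pz i₀ q r ((ζ : ℂ) * u4 j) = (v : OnePoint (A → VV)) then lb a f ζ j else 0 :=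
  cf_P _ _ _ v

theorem MB_infty {a : ZMod 4 → A → ZMod 4} (ha : LV a) (i₀ : A) {q : A → I} {r : I}
    (f ζ : Circle) (h : q ∈ Cube.boundary A ∨ r = 1) : MB ha i₀ q r f ζ = Wpt A :=
  cfW_infty _ _ _ _ _ fun _ => pz_infty h

theorem MB_zero {a : ZMod 4 → A → ZMod 4} (ha : LV a) (i₀ : A) (q : A → I)
    (f ζ f' ζ' : Circle) : MB ha i₀ q 0 f ζ = MB ha i₀ q 0 f' ζ' := by
  classical
  apply Subtype.ext
  refine Conf.ext (funext fun v => ?_)
  rw [MB_P, MB_P]
  by_cases h : pz i₀ q 0 1 = (v : OnePoint (A → VV))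
  · have h1 : ∀ ζ : ℂ, pz i₀ q 0 ζ = (v : OnePoint (A → VV)) := fun ζ => by
      rw [pz_zero i₀ q ζ 1, h]
    rw [Finset.sum_congr rfl fun j _ => if_pos (h1 _), Finset.sum_congr rfl fun j _ =>
      if_pos (h1 _)]
    ext x y
    rw [Matrix.sum_apply, Matrix.sum_apply, lb_sum ha.inj, lb_sum ha.inj]
  · have h1 : ∀ ζ : ℂ, ¬ pz i₀ q 0 ζ = (v : OnePoint (A → VV)) := fun ζ => by
      rw [pz_zero i₀ q ζ 1]
      exact h
    rw [Finset.sum_eq_zero fun j _ => if_neg (h1 _), Finset.sum_eq_zero fun j _ =>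
      if_neg (h1 _)]

theorem MB_shift {a : ZMod 4 → A → ZMod 4} (ha : LV a) (i₀ : A) (q : A → I) (r : I)
    (f ζ ξ : Circle) (hξ : (ξ : ℂ) = Complex.I) :
    MB ha i₀ q r f (ξ * ζ) = MB ha i₀ q r f ζ := by
  classical
  apply Subtype.ext
  refine Conf.ext (funext fun v => ?_)
  rw [MB_P, MB_P]
  refine Fintype.sum_equiv (Equiv.addRight (1 : ZMod 4)) _ _ fun j => ?_
  show (if _ then _ else _) = if pz i₀ q r ((ζ : ℂ) * u4 (j + 1)) = _ then lb a f ζ (j + 1) else 0
  rw [lb_shift a f ζ ξ hξ]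
  have : ((ξ * ζ : Circle) : ℂ) * u4 j = (ζ : ℂ) * u4 (j + 1) := by
    rw [Circle.coe_mul, hξ, u4_add_one]
    ring
  rw [this]

theorem MB_shift_four {a : ZMod 4 → A → ZMod 4} (ha : LV a) (i₀ : A) (q : A → I) (r : I)
    (f ζ ξ : Circle) (hξ : ξ ^ 4 = 1) :
    MB ha i₀ q r f (ξ * ζ) = MB ha i₀ q r f ζ := by
  have hI : ∃ ι : Circle, (ι : ℂ) = Complex.I :=
    ⟨⟨Complex.I, by simp [Submonoid.unitSphere]⟩, rfl⟩
  obtain ⟨ι, hι⟩ := hI
  have hξ' : (ξ : ℂ) ^ 4 = 1 := by
    rw [← Circle.coe_pow, hξ, Circle.coe_one]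
  have key : ∀ n : ℕ, MB ha i₀ q r f (ι ^ n * ζ) = MB ha i₀ q r f ζ := by
    intro n
    induction n with
    | zero => rw [pow_zero, one_mul]
    | succ n ih =>
      rw [pow_succ', mul_assoc, MB_shift ha i₀ q r f _ ι hι, ih]
  have h1 : ∃ n : ℕ, ξ = ι ^ n := by
    have h2 : ((ξ : ℂ) - 1) * ((ξ : ℂ) + 1) * (((ξ : ℂ) - Complex.I) * ((ξ : ℂ) + Complex.I)) =
        0 := by
      linear_combination hξ' - ((ξ : ℂ) ^ 2 - 1) * Complex.I_sq
    rcases mul_eq_zero.1 h2 with h3 | h3
    · rcases mul_eq_zero.1 h3 with h4 | h4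
      · exact ⟨0, Circle.ext (by
          rw [pow_zero, Circle.coe_one]
          linear_combination h4)⟩
      · exact ⟨2, Circle.ext (by
          rw [Circle.coe_pow, hι, Complex.I_sq]
          linear_combination h4)⟩
    · rcases mul_eq_zero.1 h3 with h4 | h4
      · exact ⟨1, Circle.ext (by
          rw [pow_one, hι]
          linear_combination h4)⟩
      · exact ⟨3, Circle.ext (by
          rw [Circle.coe_pow, hι, pow_succ, Complex.I_sq]
          linear_combination h4)⟩
  obtain ⟨n, rfl⟩ := h1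
  exact key n

theorem continuous_MB {a : ZMod 4 → A → ZMod 4} (ha : LV a) (i₀ : A) {q : Z → A → I}
    {r : Z → I} {f ζ : Z → Circle} (hq : Continuous q) (hr : Continuous r) (hf : Continuous f)
    (hζ : Continuous ζ) : Continuous fun z => MB ha i₀ (q z) (r z) (f z) (ζ z) := by
  refine continuous_cfW _ _ _ (fun j => ?_) fun z => Or.inl fun j => Or.inr ?_
  · refine continuous_pz i₀ hq hr ((continuous_subtype_val.comp hζ).mul continuous_const) ?_
    intro z
    rw [norm_mul, Circle.norm_coe, norm_u4, one_mul]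
  · exact (continuous_lb a hf hζ j).continuousAt

/-- The radius. -/
def rr (u y : I) : I :=
  max ⟨|2 * (y : ℝ) - 1|, abs_nonneg _, by
    rw [abs_le]
    constructor
    · linarith [y.2.1]
    · linarith [y.2.2]⟩ u

theorem continuous_rr : Continuous fun p : I × I => rr p.1 p.2 := by
  unfold rr
  refine Continuous.max ?_ continuous_fst
  refine Continuous.subtype_mk ?_ _
  exact ((continuous_const.mul (continuous_subtype_val.comp continuous_snd)).sub
    continuous_const).abs

/-- The universal family. -/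
def MF {a : ZMod 4 → A → ZMod 4} (ha : LV a) (i₀ : A) (q : A → I) (φ θ : ℝ) (u y : I) : WX A :=
  if (y : ℝ) ≤ 1 / 2 then MB ha i₀ q (rr u y) 1 1 else
    MB ha i₀ q (rr u y) (Circle.exp φ) (Circle.exp (θ / 4))

theorem MB_periodic {a : ZMod 4 → A → ZMod 4} (ha : LV a) (i₀ : A) (q : A → I) (r : I)
    {φ θ φ' θ' : ℝ} (h1 : Circle.exp φ = Circle.exp φ') (h2 : Circle.exp θ = Circle.exp θ') :
    MB ha i₀ q r (Circle.exp φ) (Circle.exp (θ / 4)) =
      MB ha i₀ q r (Circle.exp φ') (Circle.exp (θ' / 4)) := by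
  have h3 : Circle.exp (θ / 4) = Circle.exp ((θ - θ') / 4) * Circle.exp (θ' / 4) := by
    rw [← Circle.exp_add]
    congr 1
    ring
  have h4 : Circle.exp ((θ - θ') / 4) ^ 4 = 1 := by
    have h5 : Circle.exp ((θ - θ') / 4) ^ 4 = Circle.exp (θ - θ') := by
      rw [show (4 : ℕ) = 3 + 1 from rfl, pow_succ, pow_succ, pow_succ, pow_one, ← Circle.exp_add,
        ← Circle.exp_add, ← Circle.exp_add]
      congr 1
      ring
    rw [h5, Circle.exp_sub, h2, div_self']
  rw [h3, MB_shift_four ha i₀ q r _ _ _ h4, h1]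

theorem MF_periodic {a : ZMod 4 → A → ZMod 4} (ha : LV a) (i₀ : A) (q : A → I) (u y : I)
    {φ θ φ' θ' : ℝ} (h1 : Circle.exp φ = Circle.exp φ') (h2 : Circle.exp θ = Circle.exp θ') :
    MF ha i₀ q φ θ u y = MF ha i₀ q φ' θ' u y := by
  unfold MF
  rw [MB_periodic ha i₀ q _ h1 h2]

theorem rr_half (y : I) (h : (y : ℝ) = 1 / 2) : rr 0 y = 0 := by
  unfold rr
  apply Subtype.ext
  rw [max_eq_left]
  · show |2 * (y : ℝ) - 1| = 0
    rw [h]
    norm_num
  · exact Subtype.coe_le_coe.1 (abs_nonneg _)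

/-- **Continuity of the universal family.** -/
theorem continuous_MF {a : ZMod 4 → A → ZMod 4} (ha : LV a) (i₀ : A) {q : Z → A → I}
    {φ θ : Z → ℝ} {u y : Z → I} (hq : Continuous q) (hφ : Continuous φ) (hθ : Continuous θ)
    (hu : Continuous u) (hy : Continuous y)
    (h : ∀ z, (y z : ℝ) = 1 / 2 → u z = 0 ∨ (Circle.exp (φ z) = 1 ∧ Circle.exp (θ z) = 1)) :
    Continuous fun z => MF ha i₀ (q z) (φ z) (θ z) (u z) (y z) := by
  have hr : Continuous fun z => rr (u z) (y z) := continuous_rr.comp (hu.prodMk hy)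
  refine Continuous.if_le ?_ ?_ (continuous_subtype_val.comp hy) continuous_const ?_
  · exact continuous_MB ha i₀ hq hr continuous_const continuous_const
  · exact continuous_MB ha i₀ hq hr (Circle.exp.continuous.comp hφ)
      (Circle.exp.continuous.comp (hθ.div_const _))
  · intro z hz
    rcases h z hz with h0 | ⟨h1, h2⟩
    · rw [h0, rr_half _ hz]
      exact MB_zero ha i₀ _ _ _ _ _
    · have h3 := MB_periodic ha i₀ (q z) (rr (u z) (y z)) (φ := φ z) (θ := θ z) (φ' := 0)
        (θ' := 0) (by rw [h1, Circle.exp_zero]) (by rw [h2, Circle.exp_zero])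
      rw [h3, Circle.exp_zero, zero_div, Circle.exp_zero]

theorem MF_infty {a : ZMod 4 → A → ZMod 4} (ha : LV a) (i₀ : A) {q : A → I} (φ θ : ℝ) {u y : I}
    (h : q ∈ Cube.boundary A ∨ u = 1 ∨ y = 0 ∨ y = 1) : MF ha i₀ q φ θ u y = Wpt A := by
  have h1 : q ∈ Cube.boundary A ∨ rr u y = 1 := by
    rcases h with h | h | h | h
    · exact Or.inl h
    · right
      rw [h]
      exact max_eq_right (Subtype.coe_le_coe.1 (by
        show |2 * (y : ℝ) - 1| ≤ 1
        rw [abs_le]
        constructor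
        · linarith [y.2.1]
        · linarith [y.2.2]))
    · right
      unfold rr
      rw [max_eq_left]
      · apply Subtype.ext
        show |2 * (y : ℝ) - 1| = 1
        rw [h]
        norm_num
      · apply Subtype.coe_le_coe.1
        show (u : ℝ) ≤ |2 * (y : ℝ) - 1|
        rw [h]
        norm_num
        exact u.2.2
    · right
      unfold rr
      rw [max_eq_left]
      · apply Subtype.ext
        show |2 * (y : ℝ) - 1| = 1
        rw [h]
        norm_num
      · apply Subtype.coe_le_coe.1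
        show (u : ℝ) ≤ |2 * (y : ℝ) - 1|
        rw [h]
        norm_num
        exact u.2.2
  unfold MF
  split_ifs
  · exact MB_infty ha i₀ _ _ h1
  · exact MB_infty ha i₀ _ _ h1

end fam

end Pool.Agent.Tate.R2
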