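import Pool.Agent.Lib.Tate.R.R3.Bet
import Pool.Agent.Lib.Tate.R.R2.Lp
import Pool.Agent.Lib.Tate.T2.Clamp

/-!
# C42 (MP_071d69_gt), block R2 (helper14): four points, labels with a varying first vector

`MW i₀ q r v`: the four points of `MB`, with the labels the lines of
`v₁ e_0 + v₂ e' + ∑_{k = 1, 2, 3} (I^j)^k e_k`, `e'` the second basis vector of `Jm`, `|v| = 1`.
`LL D`: loops given by a radius and a vector on the two-sphere; `LL_homotopic`.
-/

set_option linter.unusedSectionVars false

open Topology unitInterval Filter Set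
open scoped Topology.Homotopy OnePoint ZeroAtInfty

noncomputable section

namespace Pool.Agent.Tate.R2

open R3

/-! ### Vectors in a basis -/

section vk

variable {K J : Type} [Fintype K] [DecidableEq K] [Fintype J] [DecidableEq J]

/-- The vector with the coefficients `w k` for `a k`. -/
def vk (a : K → J) (w : K → ℂ) (x : J) : ℂ := ∑ k, if x = a k then w k else 0

theorem vk_self {a : K → J} (ha : Function.Injective a) (w : K → ℂ) (k : K) :
    vk a w (a k) = w k := by
  unfold vk
  rw [Finset.sum_eq_single k]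
  · rw [if_pos rfl]
  · intro l _ hl
    rw [if_neg fun h => hl (ha h).symm]
  · intro h
    exact absurd (Finset.mem_univ k) h

theorem vk_of_not {a : K → J} (w : K → ℂ) {x : J} (hx : ∀ k, x ≠ a k) : vk a w x = 0 := by
  unfold vk
  exact Finset.sum_eq_zero fun k _ => if_neg (hx k)

theorem vk_inner {a : K → J} (ha : Function.Injective a) (w w' : K → ℂ) :
    ∑ x, (starRingEnd ℂ) (vk a w x) * vk a w' x = ∑ k, (starRingEnd ℂ) (w k) * w' k := by
  classical
  rw [← Finset.sum_subset (Finset.subset_univ (Finset.univ.image a))]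
  · rw [Finset.sum_image fun _ _ _ _ h => ha h]
    refine Finset.sum_congr rfl fun k _ => ?_
    rw [vk_self ha, vk_self ha]
  · intro x _ hx
    rw [vk_of_not w' (fun k h => hx (by
      rw [Finset.mem_image]
      exact ⟨k, Finset.mem_univ k, h.symm⟩)), mul_zero]

end vk

/-! ### Unit vectors of `ℂ²` -/

/-- Unit vectors. -/
def SV : Type := {v : ℂ × ℂ // v.1 * (starRingEnd ℂ) v.1 + v.2 * (starRingEnd ℂ) v.2 = 1}

instance : TopologicalSpace SV := instTopologicalSpaceSubtype

/-- The coordinates. -/
def SV.co (v : SV) (b : Bool) : ℂ := if b then v.1.2 else v.1.1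

/-- The projection to the line. -/
def SV.mv (v : SV) : Matrix Bool Bool ℂ := fun b b' => v.co b * (starRingEnd ℂ) (v.co b')

/-! ### Labels -/

/-- The degree of a basis vector. -/
def dg (κ : Option (ZMod 4)) : ZMod 4 := κ.getD 0

/-- The coefficient of a basis vector. -/
def uc (v : SV) (κ : Option (ZMod 4)) : ℂ :=
  κ.elim v.1.2 fun k => if k = 0 then v.1.1 else 1

/-- The vectors `e_k`. -/
def ak (k : ZMod 4) : LB → ZMod 4 := Sum.elim (fun _ => 0) fun _ => k

/-- The basis vectors. -/
def bv (κ : Option (ZMod 4)) : LB → ZMod 4 :=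
  κ.elim (jv (Sum.inl ()) (Sum.inr ()) true) ak

theorem chi_ak (k : ZMod 4) : chi (ak k) = Complex.I ^ k.val := by
  unfold chi ak
  rw [Fintype.prod_sum_type]
  simp

theorem LV_ak : LV ak where
  inj _ _ h := congrFun h (Sum.inr ())
  ch k := by
    rw [chi_ak, chi_ak, ZMod.val_zero, pow_zero, one_mul]

theorem chi_bv (κ : Option (ZMod 4)) : chi (bv κ) = Complex.I ^ (dg κ).val := by
  cases κ with
  | none =>
    show chi (jv (Sum.inl ()) (Sum.inr ()) true) = Complex.I ^ (0 : ZMod 4).val
    rw [chi_jv (by simp)]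
    simp
  | some k => exact chi_ak k

theorem bv_injective : Function.Injective bv := by
  intro κ κ' h
  cases κ with
  | none =>
    cases κ' with
    | none => rfl
    | some l =>
      have h1 : (1 : ZMod 4) = 0 := congrFun h (Sum.inl ())
      exact absurd h1 (by decide)
  | some k =>
    cases κ' with
    | none =>
      have h1 : (0 : ZMod 4) = 1 := congrFun h (Sum.inl ())
      exact absurd h1 (by decide)
    | some l => exact congrArg some (LV_ak.inj h)

theorem jv_eq_bv (b : Bool) : jv (Sum.inl () : LB) (Sum.inr ()) b =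
    bv (if b then none else some 0) := by
  cases b
  · rw [jv_false]
    funext i
    rcases i with i | i <;> rfl
  · rfl

/-- The coefficients of the vector of the label. -/
def cw (v : SV) (j : ZMod 4) (κ : Option (ZMod 4)) : ℂ := uc v κ * u4 j ^ (dg κ).val

/-- The label. -/
def lw (v : SV) (j : ZMod 4) : Mt LB (ZMod 4) := fun x y =>
  vk bv (cw v j) x * (starRingEnd ℂ) (vk bv (cw v j) y) / 4

theorem uc_sum (v : SV) (t : ℂ) :
    ∑ κ, (uc v κ * (starRingEnd ℂ) (uc v κ)) * t ^ (dg κ).val = ∑ k : ZMod 4, t ^ k.val := by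
  rw [Fintype.sum_option]
  have h1 : ∀ F : ZMod 4 → ℂ, ∑ k : ZMod 4, F k = F 0 + F 1 + F 2 + F 3 := fun F =>
    Fin.sum_univ_four F
  rw [h1, h1]
  have hv := v.2
  have e1 : (1 : ZMod 4) ≠ 0 := by decide
  have e2 : (2 : ZMod 4) ≠ 0 := by decide
  have e3 : (3 : ZMod 4) ≠ 0 := by decide
  have f0 : (0 : ZMod 4).val = 0 := rfl
  simp only [uc, dg, Option.elim, Option.getD, if_pos, if_neg e1, if_neg e2, if_neg e3, map_one,
    mul_one, one_mul, f0, pow_zero]
  linear_combination hv

theorem cw_inner (v : SV) (j l : ZMod 4) :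
    ∑ x, (starRingEnd ℂ) (vk bv (cw v j) x) * vk bv (cw v l) x = if j = l then 4 else 0 := by
  rw [vk_inner bv_injective, ← u4_orth j l, ← uc_sum v]
  refine Finset.sum_congr rfl fun κ _ => ?_
  unfold cw
  rw [map_mul, map_pow, mul_pow]
  ring

theorem lw_of (v : SV) : OF (lw v) := by
  have key : ∀ j l x z, (lw v j * lw v l) x z =
      vk bv (cw v j) x * (if j = l then 4 else 0) * (starRingEnd ℂ) (vk bv (cw v l) z) / 16 := by
    intro j l x z
    rw [← cw_inner v j l, Matrix.mul_apply, Finset.mul_sum, Finset.sum_mul, Finset.sum_div]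
    refine Finset.sum_congr rfl fun y _ => ?_
    unfold lw
    ring
  refine ⟨?_, ?_, ?_⟩
  · intro j
    ext x y
    rw [Matrix.conjTranspose_apply]
    unfold lw
    show (starRingEnd ℂ) _ = _
    rw [map_div₀, map_mul, Complex.conj_conj, mul_comm]
    congr 1
    exact (map_ofNat (starRingEnd ℂ) 4)
  · intro j
    ext x z
    rw [key, if_pos rfl]
    unfold lw
    ring
  · intro j l hjl
    ext x z
    rw [key, if_neg hjl]
    simp

theorem lw_succ (v : SV) (j : ZMod 4) (x y : LB → ZMod 4) :
    lw v (j + 1) x y = chi x * (starRingEnd ℂ) (chi y) * lw v j x y := by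
  have key : ∀ x, vk bv (cw v (j + 1)) x = chi x * vk bv (cw v j) x := by
    intro x
    by_cases hx : ∃ κ, x = bv κ
    · obtain ⟨κ, rfl⟩ := hx
      rw [vk_self bv_injective, vk_self bv_injective, chi_bv]
      unfold cw
      rw [u4_add_one, mul_pow]
      ring
    · push Not at hx
      rw [vk_of_not _ hx, vk_of_not _ hx, mul_zero]
  unfold lw
  rw [key, key, map_mul]
  ring

/-- The projection to the span of `e_1, e_2, e_3`. -/
def P3 : Mt LB (ZMod 4) := fun x y => if x = y ∧ ∃ k : ZMod 4, k ≠ 0 ∧ x = ak k then 1 else 0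

theorem u4_sum_mul (k l : ZMod 4) :
    ∑ j : ZMod 4, u4 j ^ k.val * (starRingEnd ℂ) (u4 j) ^ l.val = if k = l then 4 else 0 := by
  have h1 := u4_orth l k
  have h2 : ∀ j : ZMod 4, u4 j ^ k.val * (starRingEnd ℂ) (u4 j) ^ l.val =
      ((starRingEnd ℂ) (u4 l) * u4 k) ^ j.val := by
    intro j
    rw [mul_pow, ← map_pow, ← map_pow]
    have h3 : ∀ a b : ZMod 4, u4 a ^ b.val = u4 b ^ a.val := by
      intro a b
      unfold u4
      rw [← pow_mul, ← pow_mul, mul_comm]
    rw [h3 j k, h3 j l, mul_comm]
  rw [Finset.sum_congr rfl fun j _ => h2 j, h1]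
  by_cases h : k = l
  · rw [if_pos h, if_pos h.symm]
  · rw [if_neg h, if_neg fun h' => h h'.symm]

/-- The sum of the labels. -/
theorem lw_sum (v : SV) : ∑ j, lw v j = Jm (Sum.inl ()) (Sum.inr ()) v.mv + P3 := by
  have key : ∀ κ κ', ∑ j, lw v j (bv κ) (bv κ') =
      if dg κ = dg κ' then uc v κ * (starRingEnd ℂ) (uc v κ') else 0 := by
    intro κ κ'
    have h1 : ∀ j, lw v j (bv κ) (bv κ') = uc v κ * (starRingEnd ℂ) (uc v κ') / 4 *
        (u4 j ^ (dg κ).val * (starRingEnd ℂ) (u4 j) ^ (dg κ').val) := by
      intro j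
      unfold lw
      rw [vk_self bv_injective, vk_self bv_injective]
      unfold cw
      rw [map_mul, map_pow]
      ring
    rw [Finset.sum_congr rfl fun j _ => h1 j, ← Finset.mul_sum, u4_sum_mul]
    split_ifs
    · ring
    · ring
  have key0 : ∀ x y, (∀ κ, x ≠ bv κ) → ∑ j, lw v j x y = 0 := by
    intro x y hx
    refine Finset.sum_eq_zero fun j _ => ?_
    unfold lw
    rw [vk_of_not _ hx]
    simp
  have key1 : ∀ x y, (∀ κ, y ≠ bv κ) → ∑ j, lw v j x y = 0 := by
    intro x y hy
    refine Finset.sum_eq_zero fun j _ => ?_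
    unfold lw
    rw [vk_of_not _ hy]
    simp
  ext x y
  rw [Matrix.sum_apply, Matrix.add_apply]
  by_cases hx : ∀ κ, x ≠ bv κ
  · rw [key0 x y hx, Jm_left _ fun b => by rw [jv_eq_bv]; exact hx _, zero_add]
    unfold P3
    rw [if_neg]
    rintro ⟨-, k, -, hk⟩
    exact hx (some k) hk
  by_cases hy : ∀ κ, y ≠ bv κ
  · rw [key1 x y hy, Jm_right _ fun b => by rw [jv_eq_bv]; exact hy _, zero_add]
    unfold P3
    rw [if_neg]
    rintro ⟨rfl, k, -, hk⟩
    exact hy (some k) hk
  push Not at hx hy
  obtain ⟨κ, rfl⟩ := hx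
  obtain ⟨κ', rfl⟩ := hy
  rw [key]
  -- the entries of `P3`
  have hP : ∀ κ κ', P3 (bv κ) (bv κ') = if κ = κ' ∧ ∃ k : ZMod 4, k ≠ 0 ∧ κ = some k then 1 else 0 := by
    intro κ κ'
    unfold P3
    have : (bv κ = bv κ' ∧ ∃ k : ZMod 4, k ≠ 0 ∧ bv κ = ak k) ↔
        (κ = κ' ∧ ∃ k : ZMod 4, k ≠ 0 ∧ κ = some k) := by
      constructor
      · rintro ⟨h, k, hk, h'⟩
        exact ⟨bv_injective h, k, hk, bv_injective h'⟩
      · rintro ⟨h, k, hk, h'⟩
        exact ⟨congrArg bv h, k, hk, congrArg bv h'⟩
    simp only [this]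
  rw [hP]
  by_cases h1 : κ = none ∨ κ = some 0
  · by_cases h2 : κ' = none ∨ κ' = some 0
    · obtain ⟨b, rfl⟩ : ∃ b : Bool, κ = if b then none else some 0 := by
        rcases h1 with h | h
        · exact ⟨true, h⟩
        · exact ⟨false, h⟩
      obtain ⟨b', rfl⟩ : ∃ b : Bool, κ' = if b then none else some 0 := by
        rcases h2 with h | h
        · exact ⟨true, h⟩
        · exact ⟨false, h⟩
      rw [← jv_eq_bv, ← jv_eq_bv, Jm_apply]
      have e1 : ∀ b : Bool, dg (if b then none else some 0) = 0 := by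
        intro b
        cases b <;> rfl
      have e2 : ∀ b : Bool, uc v (if b then none else some 0) = v.co b := by
        intro b
        cases b <;> rfl
      rw [e1, e1, if_pos rfl, e2, e2, if_neg]
      · rw [add_zero]
        rfl
      · rintro ⟨-, k, hk, hk'⟩
        cases b
        · exact hk (Option.some_injective _ hk').symm
        · exact absurd hk' (by simp)
    · -- `κ'` has positive degree
      obtain ⟨l, hl, rfl⟩ : ∃ l : ZMod 4, l ≠ 0 ∧ κ' = some l := by
        cases κ' with
        | none => exact absurd (Or.inl rfl) h2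
        | some l => exact ⟨l, fun h => h2 (Or.inr (by rw [h])), rfl⟩
      have e1 : dg κ = 0 := by
        rcases h1 with h | h <;> rw [h] <;> rfl
      have e2 : dg (some l) = l := rfl
      rw [e1, e2, if_neg (Ne.symm hl), Jm_right _ fun b hb => ?_, if_neg ?_, add_zero]
      · rintro ⟨rfl, -⟩
        exact h2 h1
      · rw [jv_eq_bv] at hb
        have := bv_injective hb
        cases b
        · exact hl (Option.some_injective _ this)
        · exact absurd this (by simp)
  · obtain ⟨k, hk, rfl⟩ : ∃ l : ZMod 4, l ≠ 0 ∧ κ = some l := by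
      cases κ with
      | none => exact absurd (Or.inl rfl) h1
      | some l => exact ⟨l, fun h => h1 (Or.inr (by rw [h])), rfl⟩
    have e2 : dg (some k) = k := rfl
    have e3 : uc v (some k) = 1 := if_neg hk
    rw [Jm_left _ fun b hb => ?_, zero_add, e2, e3]
    · by_cases h2 : some k = κ'
      · subst h2
        rw [if_pos e2.symm, e3, if_pos ⟨rfl, k, hk, rfl⟩]
        simp
      · have h3 : ¬ k = dg κ' := by
          intro h
          cases κ' with
          | none => exact hk h
          | some l => exact h2 (congrArg some h)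
        rw [if_neg h3, if_neg fun h => h2 h.1]
    · rw [jv_eq_bv] at hb
      have := bv_injective hb
      cases b
      · exact hk (Option.some_injective _ this)
      · exact absurd this (by simp)

/-! ### Continuity of the labels -/

section cont

variable {Z : Type} [TopologicalSpace Z]

theorem SV.continuous_co (b : Bool) : Continuous fun v : SV => v.co b := by
  unfold SV.co
  cases b
  · exact continuous_fst.comp continuous_subtype_val
  · exact continuous_snd.comp continuous_subtype_val

theorem SV.continuous_mv : Continuous SV.mv := by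
  unfold SV.mv
  refine continuous_pi fun b => continuous_pi fun b' => ?_
  exact (SV.continuous_co b).mul (Complex.continuous_conj.comp (SV.continuous_co b'))

theorem continuous_uc (κ : Option (ZMod 4)) : Continuous fun v : SV => uc v κ := by
  unfold uc
  cases κ with
  | none => exact continuous_snd.comp continuous_subtype_val
  | some k =>
    show Continuous fun v : SV => if k = 0 then v.1.1 else 1
    split_ifs
    · exact continuous_fst.comp continuous_subtype_val
    · exact continuous_const

theorem continuous_lw (j : ZMod 4) : Continuous fun v : SV => lw v j := by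
  have hv : ∀ x, Continuous fun v : SV => vk bv (cw v j) x := by
    intro x
    unfold vk cw
    refine continuous_finsetSum _ fun κ _ => ?_
    split_ifs
    · exact (continuous_uc κ).mul continuous_const
    · exact continuous_const
  refine continuous_pi fun x => continuous_pi fun y => ?_
  exact ((hv x).mul (Complex.continuous_conj.comp (hv y))).div_const _

end cont

/-! ### The family -/

section fam

variable {Z : Type} [TopologicalSpace Z]

theorem IV_lw (q : LB → I) (r : I) (v : SV) :
    IV (fun j => pz (Sum.inr ()) q r (u4 j)) (lw v) (Equiv.addRight (1 : ZMod 4)) where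
  pt j := by
    show pz (Sum.inr ()) q r (u4 (j + 1)) = _
    rw [rotE_pz, u4_add_one]
  lb j x y := lw_succ v j x y

/-- The configuration of four points. -/
def MW (q : LB → I) (r : I) (v : SV) : WX LB :=
  cfW (fun j => pz (Sum.inr ()) q r (u4 j)) (lw v) (lw_of v) (Equiv.addRight (1 : ZMod 4))
    (IV_lw q r v)

theorem MW_P (q : LB → I) (r : I) (v : SV) (y : LB → VV) :
    (MW q r v).1.P y = ∑ j, open Classical in
      if pz (Sum.inr ()) q r (u4 j) = (y : OnePoint (LB → VV)) then lw v j else 0 :=
  cf_P _ _ _ y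

theorem MW_infty {q : LB → I} {r : I} (v : SV) (h : q ∈ Cube.boundary LB ∨ r = 1) :
    MW q r v = Wpt LB :=
  cfW_infty _ _ _ _ _ fun _ => pz_infty h

theorem pz_eq_ps (q : LB → I) (ζ : ℂ) : pz (Sum.inr ()) q 0 ζ = ps q := by
  by_cases h : q ∈ Cube.boundary LB
  · rw [pz_infty (Or.inl h), ps_bdry h]
  · have h1 : ¬ (q ∈ Cube.boundary LB ∨ (0 : I) = 1) := by
      rintro (h' | h')
      · exact h h'
      · exact absurd h' (by simp)
    rw [pz_of_not h1, ps_of_not h]
    congr 1
    funext b
    unfold pzv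
    simp

theorem MW_zero_P (q : LB → I) (v : SV) (y : LB → VV) : (MW q 0 v).1.P y = open Classical in
    if ps q = (y : OnePoint (LB → VV)) then Jm (Sum.inl ()) (Sum.inr ()) v.mv + P3 else 0 := by
  rw [MW_P]
  by_cases h : ps q = (y : OnePoint (LB → VV))
  · rw [if_pos h, ← lw_sum]
    exact Finset.sum_congr rfl fun j _ => if_pos (by rw [pz_eq_ps, h])
  · rw [if_neg h]
    exact Finset.sum_eq_zero fun j _ => if_neg (by rw [pz_eq_ps]; exact h)

/-- Over the centre only the line matters. -/
theorem MW_zero (q : LB → I) {v v' : SV} (h : v.mv = v'.mv) : MW q 0 v = MW q 0 v' := by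
  refine WX.ext fun y => ?_
  rw [MW_zero_P, MW_zero_P, h]

theorem continuous_MW {q : Z → LB → I} {r : Z → I} {v : Z → SV} (hq : Continuous q)
    (hr : Continuous r)
    (h : ∀ z, r z = 1 ∨ ContinuousAt v z ∨ (r z = 0 ∧ ContinuousAt (fun z => (v z).mv) z)) :
    Continuous fun z => MW (q z) (r z) (v z) := by
  refine continuous_cfW _ _ _ (fun j => ?_) fun z => ?_
  · refine continuous_pz _ hq hr continuous_const ?_
    intro z
    exact norm_u4 j
  · rcases h z with h1 | h1 | ⟨h1, h2⟩
    · exact Or.inl fun j => Or.inl (pz_infty (Or.inr h1))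
    · exact Or.inl fun j => Or.inr ((continuous_lw j).continuousAt.comp h1)
    · refine Or.inr ⟨fun i j => ?_, ?_⟩
      · show pz (Sum.inr ()) (q z) (r z) (u4 i) = pz (Sum.inr ()) (q z) (r z) (u4 j)
        rw [h1, pz_eq_ps, pz_eq_ps]
      · have e : (fun z => ∑ j, lw (v z) j) =
            fun z => Jm (Sum.inl () : LB) (Sum.inr ()) (v z).mv + P3 := by
          funext z
          exact lw_sum _
        rw [e]
        refine ContinuousAt.add ?_ continuousAt_const
        exact ContinuousAt.comp (g := Jm (Sum.inl () : LB) (Sum.inr ())) (f := fun z => (v z).mv)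
          (continuous_Jm _ _).continuousAt h2

end fam

/-! ### Loops -/

/-- A radius and a unit vector for every point of the two-sphere. -/
structure Da where
  /-- the radius -/
  r : S2 → I
  /-- the vector -/
  v : S2 → SV
  cr : Continuous r
  cc : ∀ d, r d = 1 ∨ ContinuousAt v d ∨ (r d = 0 ∧ ContinuousAt (fun d => (v d).mv) d)

/-- Families over `I × S2` as families over `I × (cube)`. -/
theorem continuous_fam {r : I × S2 → I} {v : I × S2 → SV} (cr : Continuous r)
    (cc : ∀ p, r p = 1 ∨ ContinuousAt v p ∨ (r p = 0 ∧ ContinuousAt (fun p => (v p).mv) p)) :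
    Continuous fun p : I × (PB → I) =>
      MW (bets p.2) (r (p.1, dr (betu p.2))) (v (p.1, dr (betu p.2))) := by
  have hF : Continuous fun x : (I × (LB → I)) × S2 => MW x.1.2 (r (x.1.1, x.2)) (v (x.1.1, x.2)) := by
    have hg : Continuous fun x : (I × (LB → I)) × S2 => (x.1.1, x.2) := by fun_prop
    refine continuous_MW (by fun_prop) (cr.comp hg) fun x => ?_
    rcases cc (x.1.1, x.2) with h | h | ⟨h, h'⟩
    · exact Or.inl h
    · refine Or.inr (Or.inl ?_)
      exact ContinuousAt.comp (g := v) (f := fun x : (I × (LB → I)) × S2 => (x.1.1, x.2)) h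
        hg.continuousAt
    · refine Or.inr (Or.inr ⟨h, ?_⟩)
      exact ContinuousAt.comp (g := fun p => (v p).mv)
        (f := fun x : (I × (LB → I)) × S2 => (x.1.1, x.2)) h' hg.continuousAt
  refine continuous_part (F := fun x : (I × (LB → I)) × S2 =>
    MW x.1.2 (r (x.1.1, x.2)) (v (x.1.1, x.2))) hF (D := {t | t.2 ∈ Cube.boundary LB}) ?_
    (g := fun p : I × (PB → I) => (p.1, bets p.2)) (k := fun p : I × (PB → I) => dr (betu p.2)) ?_ ?_
  · intro t ht d d'
    show MW t.2 _ _ = MW t.2 _ _
    rw [MW_infty _ (Or.inl ht), MW_infty _ (Or.inl ht)]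
  · exact continuous_fst.prodMk (continuous_bets.comp continuous_snd)
  · intro p hp
    have h : betu p.2 ≠ 0 := fun h => hp (betu_zero h)
    exact ContinuousAt.comp (g := dr) (f := fun p : I × (PB → I) => betu p.2) (continuousAt_dr h)
      (continuous_betu.comp continuous_snd).continuousAt

/-- The map on the cube which belongs to the data. -/
def LLf (D : Da) (s : PB → I) : WX LB := MW (bets s) (D.r (dr (betu s))) (D.v (dr (betu s)))

theorem continuous_LLf (D : Da) : Continuous (LLf D) := by
  have h : Continuous fun p : I × (PB → I) => LLf D p.2 :=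
    continuous_fam (r := fun p => D.r p.2) (v := fun p => D.v p.2)
      (D.cr.comp continuous_snd) fun p => by
        rcases D.cc p.2 with h | h | ⟨h, h'⟩
        · exact Or.inl h
        · exact Or.inr (Or.inl (ContinuousAt.comp (g := D.v) (f := Prod.snd) h
            continuousAt_snd))
        · exact Or.inr (Or.inr ⟨h, ContinuousAt.comp (g := fun d => (D.v d).mv) (f := Prod.snd) h'
            continuousAt_snd⟩)
  have h2 : Continuous fun s : PB → I => ((0 : I), s) := by fun_prop
  exact Continuous.comp (g := fun p : I × (PB → I) => LLf D p.2)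
    (f := fun s : PB → I => ((0 : I), s)) h h2

/-- The loop. -/
def LL (D : Da) : WS.L PB LB :=
  ⟨⟨LLf D, continuous_LLf D⟩, fun _ hs => MW_infty _ (Or.inl (bets_bdry hs))⟩

theorem LL_apply (D : Da) (s : PB → I) :
    LL D s = MW (bets s) (D.r (dr (betu s))) (D.v (dr (betu s))) := rfl

/-- Homotopies. -/
theorem LL_homotopic {f g : WS.L PB LB} (r : I × S2 → I) (v : I × S2 → SV) (cr : Continuous r)
    (cc : ∀ p, r p = 1 ∨ ContinuousAt v p ∨ (r p = 0 ∧ ContinuousAt (fun p => (v p).mv) p))
    (h0 : ∀ s, MW (bets s) (r (0, dr (betu s))) (v (0, dr (betu s))) = f s)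
    (h1 : ∀ s, MW (bets s) (r (1, dr (betu s))) (v (1, dr (betu s))) = g s) :
    GenLoop.Homotopic f g :=
  T2.homotopic_of _ (continuous_fam cr cc) h0 h1 fun _ _ hs => MW_infty _ (Or.inl (bets_bdry hs))

/-! ### Comparison with `MB` -/

/-- The vector `(f, 0)`. -/
def ev (f : Circle) : SV := ⟨((f : ℂ), 0), by
  have h : (f : ℂ) * (starRingEnd ℂ) (f : ℂ) = 1 := by
    rw [Complex.mul_conj, Complex.normSq_eq_norm_sq, Circle.norm_coe]
    simp
  simp [h]⟩

theorem continuous_ev : Continuous ev := by
  refine Continuous.subtype_mk ?_ _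
  exact continuous_subtype_val.prodMk continuous_const

theorem vk_ev (f : Circle) (j : ZMod 4) (x : LB → ZMod 4) :
    vk bv (cw (ev f) j) x = vw ak (fun k => w0 f 1 k * u4 j ^ k.val) x := by
  unfold vk vw
  rw [Fintype.sum_option]
  have h0 : cw (ev f) j none = 0 := by
    show (0 : ℂ) * _ = 0
    rw [zero_mul]
  rw [h0]
  simp only [ite_self, zero_add]
  refine Finset.sum_congr rfl fun k _ => ?_
  have h1 : cw (ev f) j (some k) = w0 f 1 k * u4 j ^ k.val := by
    show (if k = 0 then (f : ℂ) else 1) * _ = _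
    unfold w0
    congr 1
    split_ifs
    · rfl
    · simp
  rw [h1]
  rfl

theorem MW_ev (q : LB → I) (r : I) (f : Circle) :
    MW q r (ev f) = MB LV_ak (Sum.inr ()) q r f 1 := by
  classical
  refine WX.ext fun y => ?_
  rw [MW_P, MB_P]
  refine Finset.sum_congr rfl fun j _ => ?_
  have h1 : lw (ev f) j = lb ak f 1 j := by
    ext x z
    unfold lw lb
    rw [vk_ev, vk_ev]
  rw [h1, Circle.coe_one, one_mul]

end Pool.Agent.Tate.R2
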